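import Pool.Agent.Y492.SEP.Mid
import Pool.Agent.H985R3.TA.BGD
import Pool.Agent.H985R3.TA.BGP
import Pool.Agent.H985R3.TA.BSL

/-!
# Separation of two arms with an inner event: the bad events
-/

set_option autoImplicit false

namespace H492S

open H974 Finset H985T Filter Topology

/-- the probability of two arms together with the inner event -/
noncomputable def pI (m : ℕ) (I : Finset Edg → Prop) : ℝ :=
  H12S.PQ (1 / 2) (boxE m) (fun F => A2g m (0, 0) ↑F ∧ I F)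

theorem ok2 : Ok (fun _ : Edg => (1 / 2 : ℝ)) := okq (by norm_num) (by norm_num)

theorem pI_nonneg (m : ℕ) (I : Finset Edg → Prop) : 0 ≤ pI m I := Pr_nonneg ok2 _ _

theorem pI_face {m : ℕ} {f0 : ℤ} (hf : f0 = 0 ∨ f0 = -1) {I : Finset Edg → Prop}
    (hI2 : ∀ F : Finset Edg, I ((sy 2).toLSym.mp F) ↔ I F) :
    Pr (fun _ => (1 / 2 : ℝ)) (boxE m) (fun F => A2g m (f0, f0) ↑F ∧ I F) = pI m I := by
  rcases hf with rfl | rfl
  · rfl
  · have h1 := (sy 2).toLSym.pr (1 / 2) (boxE m) (fun F => A2g m (-1, -1) ↑F ∧ I F)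
    rw [IND_box] at h1
    rw [h1]
    unfold pI H12S.PQ
    apply Pr_congr
    intro F _
    rw [LSym.coe_mp, hI2]
    constructor
    · rintro ⟨h, h4⟩
      have h2 := IND_sym' m _ h
      have h3 : (sy 2).φ '' ((sy 2).φ '' (↑F : Set Edg)) = ↑F := by
        rw [Set.image_image]
        simp only [MON_invol, Set.image_id']
      rw [h3] at h2
      exact ⟨h2, h4⟩
    · rintro ⟨h, h4⟩
      exact ⟨IND_sym m _ h, h4⟩

theorem inner_indepI {m : ℕ} {f0 : ℤ} (hf : f0 = 0 ∨ f0 = -1) {U : Finset Edg}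
    (hU : boxE m ⊆ U) {Bd : Finset Edg → Prop}
    (hB : ∀ F, F ⊆ U → (Bd F ↔ Bd (F \ boxE m))) {I : Finset Edg → Prop} {Q : Finset Edg}
    (hI : ∀ F, I F ↔ I (F ∩ Q)) (hQ : Q ⊆ boxE m)
    (hI2 : ∀ F : Finset Edg, I ((sy 2).toLSym.mp F) ↔ I F) :
    H12S.PQ (1 / 2) U (fun F => (A2g m (f0, f0) ↑F ∧ I F) ∧ Bd F) =
      pI m I * H12S.PQ (1 / 2) U Bd := by
  have hA : ∀ F, F ⊆ U → ((A2g m (f0, f0) (↑F : Set Edg) ∧ I F) ↔
      (A2g m (f0, f0) (↑(F ∩ boxE m) : Set Edg) ∧ I (F ∩ boxE m))) := by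
    intro F _
    rw [← I_loc hI hQ F, coe_inter]
    exact and_congr_left fun _ => IND_loc m _ _
  have hB' : ∀ F, F ⊆ U → (Bd F ↔ Bd (F ∩ (U \ boxE m))) := by
    intro F hF
    have : F ∩ (U \ boxE m) = F \ boxE m := by
      ext e
      simp only [Finset.mem_inter, Finset.mem_sdiff]
      constructor
      · rintro ⟨h1, _, h2⟩
        exact ⟨h1, h2⟩
      · rintro ⟨h1, h2⟩
        exact ⟨h1, hF h1, h2⟩
    rw [this]
    exact hB F hF
  have h1 := Pr_indep (p := fun _ => (1 / 2 : ℝ)) hU (sdiff_subset : U \ boxE m ⊆ U)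
    disjoint_sdiff hA hB'
  have h2 : Pr (fun _ => (1 / 2 : ℝ)) U (fun F => A2g m (f0, f0) (↑F : Set Edg) ∧ I F) =
      pI m I := by
    rw [Pr_local hU hA]
    exact pI_face hf hI2
  rw [h2] at h1
  exact h1

theorem bad_GdI_of (hH3d : ∃ C c : ℝ, 0 < C ∧ 0 < c ∧ ∀ (m r R : ℕ) (y0 : ℤ) (U : Finset Edg),
    1 ≤ r → r ≤ R → hbR m y0 R ⊆ U →
    H12S.PQ (1 / 2) U (fun F => H3d m y0 r R ↑F) ≤ C * ((r:ℝ) / R) ^ (1 + c)) :
    ∀ η : ℝ, 0 < η → ∃ B₀ : ℕ, ∀ B, B₀ ≤ B → ∃ A₀ : ℕ, ∀ A, A₀ ≤ A →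
    ∀ (l m ρ r : ℕ) (c f0 : ℤ) (U : Finset Edg), 1 ≤ l → r = A * l → ρ = B * r →
      |c| + 20 * ρ ≤ m → (f0 = 0 ∨ f0 = -1) → boxE m ⊆ U → ∀ I : Finset Edg → Prop,
      (∀ F, I F ↔ I (F ∩ boxE (m / 8))) →
      (∀ F : Finset Edg, I ((sy 2).toLSym.mp F) ↔ I F) →
      H12S.PQ (1 / 2) U (fun F => (A2g (m / 2) (f0, f0) ↑F ∧ I F) ∧ ¬ Gd m ρ r (4 * l) c ↑F) ≤
        η * pI (m / 2) I := by
  intro η hη
  obtain ⟨κ, hκ, hW⟩ := H12S.win_half
  obtain ⟨C', c', hC', hc', harm⟩ := H12S.win_arm_of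
    (fun {q κ n} h {m} hm hmn c1 c2 S => H12S.win_blk h hm hmn c1 c2 S) κ hκ
  obtain ⟨C, c1, hC, hc1, hH3⟩ := hH3d
  obtain ⟨B1, hB1⟩ := BGD_small hc' (2 * C') 16 (half_pos hη)
  refine ⟨max B1 8, fun B hB => ?_⟩
  obtain ⟨A1, hA1⟩ := BGD_small hc1 (24 * B * C) 8 (half_pos hη)
  refine ⟨max A1 8, fun A hA => ?_⟩
  intro l m ρ r c f0 U hl hr hρ hcm hf hU I hI hI2
  have hB8 : 8 ≤ B := le_trans (le_max_right _ _) hB
  have hA8 : 8 ≤ A := le_trans (le_max_right _ _) hA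
  have hB2 := hB1 B (le_trans (le_max_left _ _) hB)
  have hA2 := hA1 A (le_trans (le_max_left _ _) hA)
  have ok : Ok (fun _ : Edg => (1/2:ℝ)) := okq (by norm_num) (by norm_num)
  have hr8 : 8 * l ≤ r := by rw [hr]; exact Nat.mul_le_mul_right l hA8
  have hρ8 : 8 * r ≤ ρ := by rw [hρ]; exact Nat.mul_le_mul_right r hB8
  have hc0 := abs_nonneg c
  have hρm : 20 * ρ ≤ m := by
    have : (20 * ρ : ℤ) ≤ m := by linarith
    exact_mod_cast this
  have hBd : ∀ F, F ⊆ U → (BGD_Bd m ρ r (4 * l) c F ↔ BGD_Bd m ρ r (4 * l) c (F \ boxE (m / 2))) :=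
    fun F _ => BGD_Bd_local (by omega) F
  have h1 : H12S.PQ (1 / 2) U
      (fun F => (A2g (m / 2) (f0, f0) ↑F ∧ I F) ∧ ¬ Gd m ρ r (4 * l) c ↑F) ≤
      H12S.PQ (1 / 2) U (fun F => (A2g (m / 2) (f0, f0) ↑F ∧ I F) ∧
        BGD_Bd m ρ r (4 * l) c F) :=
    Pr_mono ok fun F _ hF => ⟨hF.1, BGD_not_Gd (by omega) hF.2⟩
  have h2 := inner_indepI (m := m / 2) hf
    ((boxE_mono (Nat.div_le_self m 2)).trans hU) (Bd := BGD_Bd m ρ r (4 * l) c) hBd hI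
    (box_sub (by omega)) hI2
  -- the three arm events
  have hA0 : (0:ℝ) < A := by exact_mod_cast (by omega : 0 < A)
  have hB0 : (0:ℝ) < B := by exact_mod_cast (by omega : 0 < B)
  have hl0 : (0:ℝ) < l := by exact_mod_cast (by omega : 0 < l)
  set N := B * A with hN
  have hρN : ρ = N * l := by rw [hρ, hr, hN, mul_assoc]
  have hN2 : 2 ≤ N := by
    have : 8 * 8 ≤ B * A := Nat.mul_le_mul hB8 hA8
    omega
  set L : ℕ := 4 * l with hL
  set T := Finset.Icc (c / (L : ℤ) - N) (c / (L : ℤ) + N) with hT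
  have hTc : (T.card : ℝ) ≤ 3 * (B * A) := by
    have h3 : T.card = 2 * N + 1 := by
      rw [hT, Int.card_Icc]
      omega
    rw [h3]
    have h4 : (2:ℝ) ≤ N := by exact_mod_cast hN2
    have h5 : (N:ℝ) = B * A := by rw [hN]; push_cast; ring
    push_cast
    rw [← h5]
    linarith
  have hx0 : (0:ℝ) ≤ C * ((8:ℝ) / A) ^ (1 + c1) := by positivity
  have h3 : H12S.PQ (1 / 2) U (fun F => ∃ k : ℤ, |(L:ℤ) * k - c| ≤ ρ ∧
      H3d m (L * k) (2 * L) r ↑F) ≤ T.card * (C * ((8:ℝ) / A) ^ (1 + c1)) := by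
    refine le_trans (Pr_mono (B := fun F => ∃ k ∈ T, |(L:ℤ) * k - c| ≤ ρ ∧
      H3d m (L * k) (2 * L) r ↑F) ok fun F _ => ?_) (BGD_union ok U T _ fun k _ => ?_)
    · rintro ⟨k, hk, hF⟩
      exact ⟨k, BGD_count hl hρN hN2 hk, hk, hF⟩
    · by_cases hk : |(L:ℤ) * k - c| ≤ ρ
      · have h4 : |(L:ℤ) * k| + r ≤ m := by
          have h5 := abs_le.1 hk
          have h6 := abs_le.1 (le_refl |c|)
          have h7 : |(L:ℤ) * k| ≤ |c| + ρ := by
            rw [abs_le]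
            constructor
            · linarith
            · linarith
          have h8 : (8 * r : ℤ) ≤ ρ := by exact_mod_cast hρ8
          have h9 : (0:ℤ) ≤ r := by positivity
          linarith
        have h5 : hbR m (L * k) r ⊆ U := (BGD_hbR_sub (by omega) h4).trans hU
        have h6 := hH3 m (2 * L) r (L * k) U (by omega) (by omega) h5
        have h7 : ((2 * L : ℕ) : ℝ) / r = 8 / A := by
          rw [hr, hL]
          push_cast
          field_simp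
          ring
        rw [h7] at h6
        exact le_trans (Pr_mono ok fun F _ hF => hF.2) h6
      · refine le_trans (le_of_eq ?_) hx0
        have h4 : Pr (fun _ : Edg => (1/2:ℝ)) U (fun F => |(L:ℤ) * k - c| ≤ ρ ∧
            H3d m (L * k) (2 * L) r ↑F) ≤ 0 := by
          unfold Pr
          refine Ex_le_of_le ok fun F _ => ?_
          rw [ind_not_of (fun h => hk h.1)]
        exact le_antisymm h4 (Pr_nonneg ok _ _)
  have h4 : (T.card : ℝ) * (C * ((8:ℝ) / A) ^ (1 + c1)) ≤ η / 2 := by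
    have h5 : ((8:ℝ) / A) ^ (1 + c1) = (8 / A) * (8 / A) ^ c1 := by
      rw [Real.rpow_add (by positivity), Real.rpow_one]
    have h6 := mul_le_mul_of_nonneg_right hTc hx0
    refine le_trans h6 (le_trans (le_of_eq ?_) hA2)
    rw [h5]
    field_simp
    ring
  -- the corners
  have h5 : ∀ y0 : ℤ, H12S.PQ (1 / 2) U (fun F => H12S.DCrs m y0 (2 * r) (ρ / 4)
      (↑(boxE m \ boxE (m / 2)) \ ↑F)) ≤ C' * ((16:ℝ) / B) ^ c' := by
    intro y0
    have h6 := (harm (1/2) (ρ / 4) (hW (ρ / 4)) (2 * r) (ρ / 4) (by omega) (by omega) le_rfl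
      m y0 U).2
    refine le_trans (Pr_mono ok fun F _ hF => BGD_dcrs_mono ?_ hF) (le_trans h6 ?_)
    · intro e he
      rw [Finset.coe_sdiff]
      refine ⟨hU ?_, he.2⟩
      have := he.1
      rw [Finset.mem_coe, Finset.mem_sdiff] at this
      exact this.1
    · refine mul_le_mul_of_nonneg_left ?_ hC'.le
      refine Real.rpow_le_rpow (by positivity) ?_ hc'.le
      have hr0 : (0:ℝ) < r := by exact_mod_cast (by omega : 0 < r)
      have h7 : (ρ:ℝ) / 8 ≤ ((ρ / 4 : ℕ) : ℝ) := by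
        have h8 : ρ ≤ 8 * (ρ / 4) := by omega
        have h9 : (ρ:ℝ) ≤ 8 * ((ρ / 4 : ℕ) : ℝ) := by exact_mod_cast h8
        linarith
      have h8 : (ρ:ℝ) = B * r := by rw [hρ]; push_cast; ring
      rw [h8] at h7
      have h9 : (0:ℝ) < ((ρ / 4 : ℕ) : ℝ) := lt_of_lt_of_le (by positivity) h7
      rw [div_le_div_iff₀ h9 hB0]
      push_cast
      nlinarith
  have h6 : H12S.PQ (1 / 2) U (BGD_Bd m ρ r L c) ≤ η := by
    have h7 := Pr_or_le ok U (fun F => ∃ k : ℤ, |(L:ℤ) * k - c| ≤ ρ ∧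
      H3d m (L * k) (2 * L) r ↑F) (fun F =>
        H12S.DCrs m (c + ρ) (2 * r) (ρ / 4) (↑(boxE m \ boxE (m / 2)) \ ↑F) ∨
        H12S.DCrs m (c - ρ) (2 * r) (ρ / 4) (↑(boxE m \ boxE (m / 2)) \ ↑F))
    have h8 := Pr_or_le ok U
      (fun F => H12S.DCrs m (c + ρ) (2 * r) (ρ / 4) (↑(boxE m \ boxE (m / 2)) \ ↑F))
      (fun F => H12S.DCrs m (c - ρ) (2 * r) (ρ / 4) (↑(boxE m \ boxE (m / 2)) \ ↑F))
    have h9 := h5 (c + ρ)
    have h10 := h5 (c - ρ)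
    refine le_trans h7 ?_
    have h11 := le_trans h3 h4
    unfold H12S.PQ at h9 h10 h11
    linarith
  refine le_trans h1 (le_of_eq_of_le h2 ?_)
  rw [mul_comm]
  exact mul_le_mul_of_nonneg_right h6 (Pr_nonneg ok _ _)

theorem bad_GpI : ∀ η : ℝ, 0 < η → ∃ B₀ : ℕ, ∀ B, B₀ ≤ B → ∃ A₀ : ℕ, ∀ A, A₀ ≤ A →
    ∀ (l m ρ r : ℕ) (s : Fin 4) (c f0 : ℤ) (U : Finset Edg), 1 ≤ l → r = A * l → ρ = B * r →
      |c| + 20 * ρ ≤ m → (f0 = 0 ∨ f0 = -1) → boxE m ⊆ U → ∀ I : Finset Edg → Prop,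
      (∀ F, I F ↔ I (F ∩ boxE (m / 8))) →
      (∀ F : Finset Edg, I ((sy 2).toLSym.mp F) ↔ I F) →
      H12S.PQ (1 / 2) U (fun F => (A2g (m / 2) (f0, f0) ↑F ∧ I F) ∧
        ¬ GpS m ρ r (4 * l) s c ↑F) ≤ η * pI (m / 2) I := by
  intro η hη
  obtain ⟨κ, hκ, hW⟩ := H12S.win_half
  obtain ⟨C', c', hC', hc', harm⟩ := H12S.win_arm_of
    (fun {q κ n} h {m} hm hmn c1 c2 S => H12S.win_blk h hm hmn c1 c2 S) κ hκ
  obtain ⟨C, c1, hC, hc1, hH3⟩ := H3p_prob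
  obtain ⟨B1, hB1⟩ := BGD_small hc' (2 * C') 16 (half_pos hη)
  refine ⟨max B1 8, fun B hB => ?_⟩
  obtain ⟨A1, hA1⟩ := BGD_small hc1 (24 * B * C) 8 (half_pos hη)
  refine ⟨max A1 8, fun A hA => ?_⟩
  intro l m ρ r s c f0 U hl hr hρ hcm hf hU I hI hI2
  have hB8 : 8 ≤ B := le_trans (le_max_right _ _) hB
  have hA8 : 8 ≤ A := le_trans (le_max_right _ _) hA
  have hB2 := hB1 B (le_trans (le_max_left _ _) hB)
  have hA2 := hA1 A (le_trans (le_max_left _ _) hA)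
  have ok : Ok (fun _ : Edg => (1/2:ℝ)) := okq (by norm_num) (by norm_num)
  have hr8 : 8 * l ≤ r := by rw [hr]; exact Nat.mul_le_mul_right l hA8
  have hρ8 : 8 * r ≤ ρ := by rw [hρ]; exact Nat.mul_le_mul_right r hB8
  have hc0 := abs_nonneg c
  have hρm : 20 * ρ ≤ m := by
    have : (20 * ρ : ℤ) ≤ m := by linarith
    exact_mod_cast this
  have hBd : ∀ F, F ⊆ U → (BGP_Bd m ρ r (4 * l) c ((sy s).toLSym.mp F) ↔
      BGP_Bd m ρ r (4 * l) c ((sy s).toLSym.mp (F \ boxE (m / 2)))) := by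
    intro F _
    rw [LSym.mp_sdiff, sy_box]
    exact BGP_Bd_local (by omega) _
  have h1 : H12S.PQ (1 / 2) U
      (fun F => (A2g (m / 2) (f0, f0) ↑F ∧ I F) ∧ ¬ GpS m ρ r (4 * l) s c ↑F) ≤
      H12S.PQ (1 / 2) U (fun F => (A2g (m / 2) (f0, f0) ↑F ∧ I F) ∧
        BGP_Bd m ρ r (4 * l) c ((sy s).toLSym.mp F)) := by
    refine Pr_mono ok fun F _ hF => ⟨hF.1, BGP_not_Gp (by omega) ?_⟩
    have h2 := hF.2
    unfold GpS at h2
    rw [LSym.coe_mp]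
    exact h2
  have h2 := inner_indepI (m := m / 2) hf
    ((boxE_mono (Nat.div_le_self m 2)).trans hU)
    (Bd := fun F => BGP_Bd m ρ r (4 * l) c ((sy s).toLSym.mp F)) hBd hI
    (box_sub (by omega)) hI2
  have hpr : H12S.PQ (1 / 2) U (fun F => BGP_Bd m ρ r (4 * l) c ((sy s).toLSym.mp F)) =
      H12S.PQ (1 / 2) ((sy s).toLSym.mp U) (BGP_Bd m ρ r (4 * l) c) :=
    ((sy s).toLSym.pr (1 / 2) U (BGP_Bd m ρ r (4 * l) c)).symm
  rw [hpr] at h2
  have hUs : boxE m ⊆ (sy s).toLSym.mp U := by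
    have h3 := LSym.mp_mono (sy s).toLSym hU
    rwa [sy_box] at h3
  clear hpr hBd
  generalize (sy s).toLSym.mp U = W at h2 hUs
  -- the three arm events
  have hA0 : (0:ℝ) < A := by exact_mod_cast (by omega : 0 < A)
  have hB0 : (0:ℝ) < B := by exact_mod_cast (by omega : 0 < B)
  have hl0 : (0:ℝ) < l := by exact_mod_cast (by omega : 0 < l)
  set N := B * A with hN
  have hρN : ρ = N * l := by rw [hρ, hr, hN, mul_assoc]
  have hN2 : 2 ≤ N := by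
    have : 8 * 8 ≤ B * A := Nat.mul_le_mul hB8 hA8
    omega
  set L : ℕ := 4 * l with hL
  set T := Finset.Icc (c / (L : ℤ) - N) (c / (L : ℤ) + N) with hT
  have hTc : (T.card : ℝ) ≤ 3 * (B * A) := by
    have h3 : T.card = 2 * N + 1 := by
      rw [hT, Int.card_Icc]
      omega
    rw [h3]
    have h4 : (2:ℝ) ≤ N := by exact_mod_cast hN2
    have h5 : (N:ℝ) = B * A := by rw [hN]; push_cast; ring
    push_cast
    rw [← h5]
    linarith
  have hx0 : (0:ℝ) ≤ C * ((8:ℝ) / A) ^ (1 + c1) := by positivity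
  have h3 : H12S.PQ (1 / 2) W (fun F => ∃ k : ℤ, |(L:ℤ) * k - c| ≤ ρ ∧
      H3p m (L * k) (2 * L) r ↑F) ≤ T.card * (C * ((8:ℝ) / A) ^ (1 + c1)) := by
    refine le_trans (Pr_mono (B := fun F => ∃ k ∈ T, |(L:ℤ) * k - c| ≤ ρ ∧
      H3p m (L * k) (2 * L) r ↑F) ok fun F _ => ?_) (BGD_union ok W T _ fun k _ => ?_)
    · rintro ⟨k, hk, hF⟩
      exact ⟨k, BGD_count hl hρN hN2 hk, hk, hF⟩
    · by_cases hk : |(L:ℤ) * k - c| ≤ ρ
      · have h4 : |(L:ℤ) * k| + r ≤ m := by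
          have h5 := abs_le.1 hk
          have h6 := abs_le.1 (le_refl |c|)
          have h7 : |(L:ℤ) * k| ≤ |c| + ρ := by
            rw [abs_le]
            constructor
            · linarith
            · linarith
          have h8 : (8 * r : ℤ) ≤ ρ := by exact_mod_cast hρ8
          have h9 : (0:ℤ) ≤ r := by positivity
          linarith
        have h5 : hbR m (L * k) r ⊆ W := (BGD_hbR_sub (by omega) h4).trans hUs
        have h6 := hH3 m (2 * L) r (L * k) W (by omega) (by omega) h5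
        have h7 : ((2 * L : ℕ) : ℝ) / r = 8 / A := by
          rw [hr, hL]
          push_cast
          field_simp
          ring
        rw [h7] at h6
        exact le_trans (Pr_mono ok fun F _ hF => hF.2) h6
      · refine le_trans (le_of_eq ?_) hx0
        have h4 : Pr (fun _ : Edg => (1/2:ℝ)) W (fun F => |(L:ℤ) * k - c| ≤ ρ ∧
            H3p m (L * k) (2 * L) r ↑F) ≤ 0 := by
          unfold Pr
          refine Ex_le_of_le ok fun F _ => ?_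
          rw [ind_not_of (fun h => hk h.1)]
        exact le_antisymm h4 (Pr_nonneg ok _ _)
  have h4 : (T.card : ℝ) * (C * ((8:ℝ) / A) ^ (1 + c1)) ≤ η / 2 := by
    have h5 : ((8:ℝ) / A) ^ (1 + c1) = (8 / A) * (8 / A) ^ c1 := by
      rw [Real.rpow_add (by positivity), Real.rpow_one]
    have h6 := mul_le_mul_of_nonneg_right hTc hx0
    refine le_trans h6 (le_trans (le_of_eq ?_) hA2)
    rw [h5]
    field_simp
    ring
  -- the corners
  have h5 : ∀ y0 : ℤ, H12S.PQ (1 / 2) W (fun F => H12S.Crs m y0 (2 * r) (ρ / 4)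
      (↑F ∩ ↑(boxE m \ boxE (m / 2)))) ≤ C' * ((16:ℝ) / B) ^ c' := by
    intro y0
    have h6 := (harm (1/2) (ρ / 4) (hW (ρ / 4)) (2 * r) (ρ / 4) (by omega) (by omega) le_rfl
      m y0 W).1
    refine le_trans (Pr_mono ok fun F _ hF => BGP_crs_mono ?_ hF) (le_trans h6 ?_)
    · exact fun e he => he.1
    · refine mul_le_mul_of_nonneg_left ?_ hC'.le
      refine Real.rpow_le_rpow (by positivity) ?_ hc'.le
      have hr0 : (0:ℝ) < r := by exact_mod_cast (by omega : 0 < r)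
      have h7 : (ρ:ℝ) / 8 ≤ ((ρ / 4 : ℕ) : ℝ) := by
        have h8 : ρ ≤ 8 * (ρ / 4) := by omega
        have h9 : (ρ:ℝ) ≤ 8 * ((ρ / 4 : ℕ) : ℝ) := by exact_mod_cast h8
        linarith
      have h8 : (ρ:ℝ) = B * r := by rw [hρ]; push_cast; ring
      rw [h8] at h7
      have h9 : (0:ℝ) < ((ρ / 4 : ℕ) : ℝ) := lt_of_lt_of_le (by positivity) h7
      rw [div_le_div_iff₀ h9 hB0]
      push_cast
      nlinarith
  have h6 : H12S.PQ (1 / 2) W (BGP_Bd m ρ r L c) ≤ η := by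
    have h7 := Pr_or_le ok W (fun F => ∃ k : ℤ, |(L:ℤ) * k - c| ≤ ρ ∧
      H3p m (L * k) (2 * L) r ↑F) (fun F =>
        H12S.Crs m (c + ρ) (2 * r) (ρ / 4) (↑F ∩ ↑(boxE m \ boxE (m / 2))) ∨
        H12S.Crs m (c - ρ) (2 * r) (ρ / 4) (↑F ∩ ↑(boxE m \ boxE (m / 2))))
    have h8 := Pr_or_le ok W
      (fun F => H12S.Crs m (c + ρ) (2 * r) (ρ / 4) (↑F ∩ ↑(boxE m \ boxE (m / 2))))
      (fun F => H12S.Crs m (c - ρ) (2 * r) (ρ / 4) (↑F ∩ ↑(boxE m \ boxE (m / 2))))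
    have h9 := h5 (c + ρ)
    have h10 := h5 (c - ρ)
    refine le_trans h7 ?_
    have h11 := le_trans h3 h4
    unfold H12S.PQ at h9 h10 h11
    linarith
  refine le_trans h1 (le_of_eq_of_le h2 ?_)
  rw [mul_comm]
  exact mul_le_mul_of_nonneg_right h6 (Pr_nonneg ok _ _)

theorem bad_selI_of
    (H3d_prob : ∃ C c : ℝ, 0 < C ∧ 0 < c ∧ ∀ (m r R : ℕ) (y0 : ℤ) (U : Finset Edg),
      1 ≤ r → r ≤ R → hbR m y0 R ⊆ U →
      H12S.PQ (1 / 2) U (fun F => H3d m y0 r R ↑F) ≤ C * ((r:ℝ) / R) ^ (1 + c)) :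
    ∀ η : ℝ, 0 < η → ∃ D₀ : ℕ, 1 ≤ D₀ ∧ ∀ D, D₀ ≤ D → ∀ m ρ : ℕ, 1 ≤ ρ →
    D * ρ ≤ m → m ≤ 2 * D * ρ → ∃ r0 R : ℕ, 10 * ρ ≤ R ∧ 2 * R + 40 * ρ ≤ r0 ∧ 8 * r0 ≤ m ∧
      ∀ I : Finset Edg → Prop, (∀ F, I F ↔ I (F ∩ boxE (m / 8))) →
      (∀ F : Finset Edg, I ((sy 2).toLSym.mp F) ↔ I F) →
      H12S.PQ (1 / 2) (boxE m) (fun F => (A2g m (0, 0) ↑F ∧ I F) ∧ ¬ SelGood m ρ r0 R ↑F) ≤
        η * pI (m / 2) I := by
  intro η hη
  obtain ⟨C1, c1, hC1, hc1, h3d⟩ := H3d_prob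
  obtain ⟨C2, c2, hC2, hc2, harm⟩ := BL_arm
  have hOk : Ok (fun _ : Edg => (1 / 2 : ℝ)) := okq (by norm_num) (by norm_num)
  obtain ⟨N1, hN1⟩ := BL_ex (C := C2) (a := 8) hc2 (show 0 < η / 32 by linarith)
  set N0 := max N1 8 with hN0
  have hN01 : N1 ≤ N0 := le_max_left _ _
  have hN08 : 8 ≤ N0 := le_max_right _ _
  obtain ⟨N2, hN2⟩ := BL_ex (C := 7 * (80 * (N0:ℝ)) * C1) (a := 80 * N0) hc1
    (show 0 < η / 8 by linarith)
  refine ⟨max N2 (200 * N0), by omega, fun D hD m ρ hρ hDm hmD => ?_⟩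
  have hD2 : N2 ≤ D := (le_max_left _ _).trans hD
  have hD1 : 200 * N0 ≤ D := (le_max_right _ _).trans hD
  have hDpos : 1 ≤ D := by omega
  have hN0pos : 0 < N0 := by omega
  set r0 := m / N0 with hr0
  have hr0a : 200 * ρ ≤ r0 := by
    rw [hr0, Nat.le_div_iff_mul_le hN0pos]
    calc 200 * ρ * N0 = 200 * N0 * ρ := by ring
      _ ≤ D * ρ := Nat.mul_le_mul_right ρ hD1
      _ ≤ m := hDm
  have hr0b : 8 * r0 ≤ m := by
    have h1 : r0 * N0 ≤ m := Nat.div_mul_le_self m N0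
    nlinarith
  have hr0c : r0 * N0 ≤ m := Nat.div_mul_le_self m N0
  have hr0d : m < (r0 + 1) * N0 := by
    have := Nat.lt_div_mul_add (a := m) hN0pos
    rw [← hr0] at this
    nlinarith
  refine ⟨r0, r0 / 4, by omega, by omega, hr0b, ?_⟩
  intro I hI hI2
  set R := r0 / 4 with hR
  have hR1 : 50 * ρ ≤ R := by omega
  have hm200 : 1600 ≤ m := by omega
  -- the bad event
  set Bs : Fin 4 → Finset Edg → Prop := fun s F =>
    H12S.Crs m m r0 (m / 4) ((((sy s).φ '' ↑F) ∩ ↑(boxE m)) \ ↑(boxE (m / 2))) ∨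
    H12S.Crs m (-(m:ℤ)) r0 (m / 4) ((((sy s).φ '' ↑F) ∩ ↑(boxE m)) \ ↑(boxE (m / 2))) ∨
    H12S.DCrs m m r0 (m / 4) (((↑(boxE m) : Set Edg) \ ((sy s).φ '' ↑F)) \ ↑(boxE (m / 2))) ∨
    H12S.DCrs m (-(m:ℤ)) r0 (m / 4) (((↑(boxE m) : Set Edg) \ ((sy s).φ '' ↑F)) \ ↑(boxE (m / 2))) ∨
    (∃ k ∈ BSL_K m ρ, |(ρ:ℤ) * k| + r0 ≤ m + ρ ∧
      H3d m (ρ * k) (8 * ρ + 1) R ((sy s).φ '' ↑F)) with hBs
  set Bd : Finset Edg → Prop := fun F => ∃ s ∈ (Finset.univ : Finset (Fin 4)), Bs s F with hBd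
  have hloc : ∀ F, F ⊆ boxE m → (Bd F ↔ Bd (F \ boxE (m / 2))) := by
    intro F _
    simp only [hBd, hBs]
    have e1 : ∀ (s : Fin 4) (k : ℤ), H3d m (ρ * k) (8 * ρ + 1) R ((sy s).φ '' ↑(F \ boxE (m / 2))) ↔
        H3d m (ρ * k) (8 * ρ + 1) R ((sy s).φ '' ↑F) := by
      intro s k
      apply BL_H3d_congr
      rw [BL_img, BL_hb_inter (by omega)]
    have e2 : ∀ s : Fin 4, (((sy s).φ '' (↑(F \ boxE (m / 2)) : Set Edg)) ∩ ↑(boxE m)) \ ↑(boxE (m / 2)) =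
        ((((sy s).φ '' ↑F) ∩ ↑(boxE m)) \ ↑(boxE (m / 2)) : Set Edg) := by
      intro s
      rw [BL_img]
      ext e
      constructor
      · rintro ⟨⟨⟨h1, h2⟩, h3⟩, h4⟩; exact ⟨⟨h1, h3⟩, h4⟩
      · rintro ⟨⟨h1, h3⟩, h4⟩; exact ⟨⟨⟨h1, h4⟩, h3⟩, h4⟩
    simp only [e1, e2, BSL_dcrs_set]
  have hRE : ∀ (c' : ℤ) (e : Edg), e ∈ RE ((m:ℤ) - (m / 4 : ℕ)) (m + (m / 4 : ℕ))
      (c' - (m / 4 : ℕ)) (c' + (m / 4 : ℕ)) → e ∉ boxE (m / 2) := by
    intro c' e he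
    exact BL_ball_out (m' := m / 2) (R := m / 4) (by omega) e he
  have hsub : ∀ (c' : ℤ) (G : Set Edg), H12S.Crs m c' r0 (m / 4) G →
      H12S.Crs m c' r0 (m / 4) (G \ ↑(boxE (m / 2))) := by
    intro c' G h
    refine H12S.Crs.mono ?_ (BL_crs_loc h)
    rintro e ⟨h1, h3⟩
    exact ⟨h1, fun h4 => hRE c' e h3 h4⟩
  have hsubd : ∀ (c' : ℤ) (G : Set Edg), H12S.DCrs m c' r0 (m / 4) G →
      H12S.DCrs m c' r0 (m / 4) (G \ ↑(boxE (m / 2))) := by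
    intro c' G h
    refine H12S.DCrs.mono ?_ (BL_dcrs_loc h)
    rintro e ⟨h1, h3⟩
    exact ⟨h1, fun h4 => hRE c' e h3 h4⟩
  have himp : ∀ F, F ⊆ boxE m → ((A2g m (0, 0) ↑F ∧ I F) ∧ ¬ SelGood m ρ r0 R ↑F) →
      ((A2g (m / 2) (0, 0) ↑F ∧ I F) ∧ Bd F) := by
    rintro F _ ⟨⟨h1, hIF⟩, h2⟩
    refine ⟨⟨A2g_half (by unfold corner; simp) h1, hIF⟩, ?_⟩
    by_contra h4
    apply h2
    have h5 : ∀ s, ¬ Bs s F := fun s hs => h4 ⟨s, Finset.mem_univ _, hs⟩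
    simp only [hBs] at h5
    push Not at h5
    refine ⟨fun s => ⟨fun h => ?_, fun h => ?_⟩, fun s => ⟨fun h => ?_, fun h => ?_⟩, ?_⟩
    · exact (h5 s).1 (hsub _ _ h)
    · exact (h5 s).2.1 (hsub _ _ h)
    · exact (h5 s).2.2.1 (hsubd _ _ h)
    · exact (h5 s).2.2.2.1 (hsubd _ _ h)
    · intro s k hk h
      exact (h5 s).2.2.2.2 k (BSL_K_mem hρ hk) hk h
  have hm4 : r0 ≤ m / 4 := by omega
  have hratio : (r0:ℝ) / ((m / 4 : ℕ) : ℝ) ≤ 8 / N0 := by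
    have h1 : m ≤ 8 * (m / 4) := by omega
    have h2 : (m:ℝ) ≤ 8 * ((m / 4 : ℕ) : ℝ) := by exact_mod_cast h1
    have h3 : (r0:ℝ) * N0 ≤ m := by exact_mod_cast hr0c
    have h4 : (0:ℝ) < ((m / 4 : ℕ) : ℝ) := by
      have : 0 < m / 4 := by omega
      exact_mod_cast this
    have h5 : (0:ℝ) < N0 := by exact_mod_cast hN0pos
    rw [div_le_div_iff₀ h4 h5]
    linarith
  have hNN : C2 * ((r0:ℝ) / ((m / 4 : ℕ) : ℝ)) ^ c2 ≤ η / 32 := by
    refine le_trans ?_ (hN1 N0 hN01)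
    apply mul_le_mul_of_nonneg_left _ hC2.le
    exact Real.rpow_le_rpow (by positivity) hratio hc2.le
  -- probability
  have hBsP : ∀ s : Fin 4, H12S.PQ (1 / 2) (boxE m) (Bs s) ≤ η / 4 := by
    intro s
    have hcor : ∀ c' : ℤ, H12S.PQ (1 / 2) (boxE m) (fun F => H12S.Crs m c' r0 (m / 4)
        ((((sy s).φ '' ↑F) ∩ ↑(boxE m)) \ ↑(boxE (m / 2)))) ≤ η / 32 := by
      intro c'
      have h1 : H12S.PQ (1 / 2) (boxE m) (fun F => H12S.Crs m c' r0 (m / 4)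
          ((((sy s).φ '' ↑F) ∩ ↑(boxE m)) \ ↑(boxE (m / 2)))) ≤
          H12S.PQ (1 / 2) (boxE m) (fun F => H12S.Crs m c' r0 (m / 4) ((sy s).φ '' ↑F)) := by
        apply Pr_mono hOk
        intro F _ h
        exact H12S.Crs.mono (Set.sdiff_subset.trans Set.inter_subset_left) h
      have h2 := BL_pr s (1 / 2) (boxE m) (fun G => H12S.Crs m c' r0 (m / 4) G)
      rw [h2] at h1
      exact h1.trans (((harm r0 (m / 4) (by omega) hm4 m c' _).1).trans hNN)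
    have hcord : ∀ c' : ℤ, H12S.PQ (1 / 2) (boxE m) (fun F => H12S.DCrs m c' r0 (m / 4)
        (((↑(boxE m) : Set Edg) \ ((sy s).φ '' ↑F)) \ ↑(boxE (m / 2)))) ≤ η / 32 := by
      intro c'
      have h1 : H12S.PQ (1 / 2) (boxE m) (fun F => H12S.DCrs m c' r0 (m / 4)
          (((↑(boxE m) : Set Edg) \ ((sy s).φ '' ↑F)) \ ↑(boxE (m / 2)))) ≤
          H12S.PQ (1 / 2) (boxE m) (fun F => H12S.DCrs m c' r0 (m / 4)
            ((↑(boxE m) : Set Edg) \ ((sy s).φ '' ↑F))) := by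
        apply Pr_mono hOk
        intro F _ h
        exact H12S.DCrs.mono Set.sdiff_subset h
      have h2 := BL_pr s (1 / 2) (boxE m) (fun G => H12S.DCrs m c' r0 (m / 4)
        ((↑(boxE m) : Set Edg) \ G))
      rw [h2, sy_box] at h1
      have h3 := (harm r0 (m / 4) (by omega) hm4 m c' (boxE m)).2
      simp only [Finset.coe_sdiff] at h3
      exact h1.trans (h3.trans hNN)
    have hthree : H12S.PQ (1 / 2) (boxE m) (fun F => ∃ k ∈ BSL_K m ρ, |(ρ:ℤ) * k| + r0 ≤ m + ρ ∧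
        H3d m (ρ * k) (8 * ρ + 1) R ((sy s).φ '' ↑F)) ≤ η / 8 := by
      refine (Pr_exists_le hOk (boxE m) (BSL_K m ρ) (fun k F => |(ρ:ℤ) * k| + r0 ≤ m + ρ ∧
        H3d m (ρ * k) (8 * ρ + 1) R ((sy s).φ '' ↑F))).trans ?_
      have hD0 : (0:ℝ) < D := by exact_mod_cast hDpos
      have hN0r : (0:ℝ) < N0 := by exact_mod_cast hN0pos
      have hρ0 : (0:ℝ) < ρ := by exact_mod_cast hρ
      have hratio2 : ((8 * ρ + 1 : ℕ) : ℝ) / (R:ℝ) ≤ 80 * N0 / D := by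
        have hRp : (0:ℝ) < R := by
          have : 0 < R := by omega
          exact_mod_cast this
        rw [div_le_div_iff₀ hRp hD0]
        have h1 : r0 + 1 ≤ 8 * R := by omega
        have h2 : (r0:ℝ) + 1 ≤ 8 * R := by exact_mod_cast h1
        have h3 : (m:ℝ) < (r0 + 1) * N0 := by exact_mod_cast hr0d
        have h4 : (D:ℝ) * ρ ≤ m := by exact_mod_cast hDm
        have h5 : (D:ℝ) * ρ ≤ 8 * R * N0 := by nlinarith
        have h6 : (1:ℝ) ≤ ρ := by exact_mod_cast hρ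
        push_cast
        nlinarith
      have hterm : ∀ k ∈ BSL_K m ρ, Pr (fun _ => (1 / 2 : ℝ)) (boxE m) (fun F =>
          |(ρ:ℤ) * k| + r0 ≤ m + ρ ∧ H3d m (ρ * k) (8 * ρ + 1) R ((sy s).φ '' ↑F)) ≤
          C1 * (80 * N0 / (D:ℝ)) ^ (1 + c1) := by
        intro k _
        by_cases hk : |(ρ:ℤ) * k| + r0 ≤ m + ρ
        · have h1 : Pr (fun _ => (1 / 2 : ℝ)) (boxE m) (fun F =>
              |(ρ:ℤ) * k| + r0 ≤ m + ρ ∧ H3d m (ρ * k) (8 * ρ + 1) R ((sy s).φ '' ↑F)) ≤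
              H12S.PQ (1 / 2) (boxE m) (fun F => H3d m (ρ * k) (8 * ρ + 1) R ((sy s).φ '' ↑F)) :=
            Pr_mono hOk (fun F _ h => h.2)
          have h2 := BL_pr s (1 / 2) (boxE m) (fun G => H3d m (ρ * k) (8 * ρ + 1) R G)
          rw [h2, sy_box] at h1
          refine h1.trans ((h3d m (8 * ρ + 1) R (ρ * k) _ (by omega) (by omega)
            (BL_hb_sub ?_)).trans ?_)
          · have h6 : (ρ:ℤ) + R ≤ r0 := by omega
            linarith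
          · apply mul_le_mul_of_nonneg_left _ hC1.le
            exact Real.rpow_le_rpow (by positivity) hratio2 (by linarith)
        · have h0 : Pr (fun _ => (1 / 2 : ℝ)) (boxE m) (fun F =>
              |(ρ:ℤ) * k| + r0 ≤ m + ρ ∧ H3d m (ρ * k) (8 * ρ + 1) R ((sy s).φ '' ↑F)) = 0 :=
            H12S.MK_false _ (boxE m) (fun F _ h => hk h.1)
          rw [h0]
          positivity
      refine (Finset.sum_le_sum hterm).trans ?_
      rw [Finset.sum_const, nsmul_eq_mul]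
      have hcard := BSL_K_card hρ hmD
      have h8 : (80 * N0 / (D:ℝ)) ^ (1 + c1) = 80 * N0 / D * (80 * N0 / (D:ℝ)) ^ c1 := by
        rw [Real.rpow_add (by positivity), Real.rpow_one]
      have hD7 : (4:ℝ) * D + 3 ≤ 7 * D := by
        have : (1:ℝ) ≤ D := by exact_mod_cast hDpos
        linarith
      calc ((BSL_K m ρ).card : ℝ) * (C1 * (80 * N0 / (D:ℝ)) ^ (1 + c1))
          ≤ (7 * D) * (C1 * (80 * N0 / (D:ℝ)) ^ (1 + c1)) := by
            apply mul_le_mul_of_nonneg_right (hcard.trans hD7)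
            positivity
        _ = 7 * (80 * (N0:ℝ)) * C1 * (80 * N0 / (D:ℝ)) ^ c1 := by
            rw [h8]
            field_simp
        _ ≤ η / 8 := hN2 D hD2
    have := BSL_or5 (hcor m) (hcor (-(m:ℤ))) (hcord m) (hcord (-(m:ℤ))) hthree
    refine le_trans this ?_
    linarith
  have hprob : H12S.PQ (1 / 2) (boxE m) Bd ≤ η := by
    refine (Pr_exists_le hOk (boxE m) (Finset.univ : Finset (Fin 4)) Bs).trans ?_
    refine (Finset.sum_le_sum (fun s _ => hBsP s)).trans ?_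
    rw [Finset.sum_const, Finset.card_univ, Fintype.card_fin, nsmul_eq_mul]
    push_cast
    linarith
  calc H12S.PQ (1 / 2) (boxE m) (fun F => (A2g m (0, 0) ↑F ∧ I F) ∧ ¬ SelGood m ρ r0 R ↑F)
      ≤ H12S.PQ (1 / 2) (boxE m) (fun F => (A2g (m / 2) (0, 0) ↑F ∧ I F) ∧ Bd F) :=
        Pr_mono hOk himp
    _ = pI (m / 2) I * H12S.PQ (1 / 2) (boxE m) Bd :=
        inner_indepI (Or.inl rfl) (box_sub (Nat.div_le_self m 2)) hloc hI
          (box_sub (by omega)) hI2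
    _ ≤ pI (m / 2) I * η := mul_le_mul_of_nonneg_left hprob (pI_nonneg _ _)
    _ = η * pI (m / 2) I := mul_comm _ _

end H492S
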