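import Pool.Agent.Y492.SEP.Rec
import Pool.Agent.H984R3.Per.LowEV

/-!
# Separation of two arms with an inner event: extension of the arms to `RA`
-/

set_option autoImplicit false

namespace H492S

open H974 Finset H985T
open H984P (RA)
open H984P.LEV

/-- agreement on the inner box -/
theorem I_agree {I : Finset Edg → Prop} {Q : Finset Edg} (hI : ∀ F, I F ↔ I (F ∩ Q))
    {F G : Finset Edg} (h : ∀ e ∈ Q, (e ∈ F ↔ e ∈ G)) : I F ↔ I G := by
  rw [hI F, hI G]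
  have e1 : F ∩ Q = G ∩ Q := by
    ext e
    simp only [Finset.mem_inter]
    constructor
    · rintro ⟨h1, h2⟩
      exact ⟨(h e h2).mp h1, h2⟩
    · rintro ⟨h1, h2⟩
      exact ⟨(h e h2).mpr h1, h2⟩
  rw [e1]

section

variable {B m ρ : ℕ} {c : ℤ} {s : Fin 4} {c' : ℤ}

theorem box_sub_U1 : boxE (m / 8) ⊆ U1 m ρ c :=
  (box_sub (Nat.div_le_self m 8)).trans Finset.subset_union_left

theorem box_sub_U2 : boxE (m / 8) ⊆ U2 m ρ c s c' := by
  unfold U2
  rw [Finset.union_assoc]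
  exact (box_sub (Nat.div_le_self m 8)).trans Finset.subset_union_left

theorem pr_EV_localI (hg : Geo B m ρ c s c') (f : Vtx)
    {I : Finset Edg → Prop} (hI : ∀ F, I F ↔ I (F ∩ boxE (m / 8))) :
    Pr (fun _ => (1/2:ℝ)) (EU m ρ c s c') (fun F => EV m ρ c s c' f F ∧ I F) =
      Pr (fun _ => (1/2:ℝ)) (S0 m) (fun F => EV m ρ c s c' f F ∧ I F) := by
  symm
  apply Pr_local (EU_sub_S0 hg)
  intro F _
  rw [← I_loc hI (box_sub_U1.trans (U1_sub_EU m ρ c s c')) F]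
  refine and_congr_left fun _ => ?_
  constructor
  · apply EV_sub
    · intro e he hU
      exact mem_inter.2 ⟨he, U1_sub_EU _ _ _ _ _ hU⟩
    · intro e he _
      exact (mem_inter.1 he).1
  · apply EV_sub
    · intro e he hU
      exact (mem_inter.1 he).1
    · intro e he hU
      exact mem_inter.2 ⟨he, U2_sub_EU _ _ _ _ _ hU⟩

end

theorem mainI (B : ℕ) : ∃ δ : ℝ, 0 < δ ∧ ∀ {m ρ : ℕ} {c : ℤ} {s : Fin 4} {c' : ℤ} {f : Vtx},
    Geo B m ρ c s c' → (-1 ≤ f.1 ∧ f.1 ≤ 0) → (-1 ≤ f.2 ∧ f.2 ≤ 0) →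
    ∀ {I : Finset Edg → Prop}, (∀ F, I F ↔ I (F ∩ boxE (m / 8))) →
    Pr (fun _ => (1/2:ℝ)) (EU m ρ c s c') (fun F => EV m ρ c s c' f F ∧ I F) * δ ≤
      Pr (fun _ => (1/2:ℝ)) (S0 m) (fun F => RAg m f F ∧ I F) := by
  obtain ⟨δ, hδ, -, hlow⟩ := hh_low (13 * B + 16)
  refine ⟨(δ * δ * δ) * ((δ * δ) * (δ * δ) * (δ * δ)), by positivity, ?_⟩
  intro m ρ c s c' f hg hf1 hf2 I hI
  have a1 := pr_ff hg hδ hlow
  have a2 := pr_gg hg hδ hlow
  rw [pr_EV_localI hg f hI]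
  have a0 : 0 ≤ Pr (fun _ => (1/2:ℝ)) (S0 m) (fun F => EV m ρ c s c' f F ∧ I F) :=
    Pr_nonneg okh _ _
  have a3 := H984P.harris_signed okh (T1_sub_S0 hg) (T2_sub_S0 m ρ c) (disj_T hg)
    (N := fun F => EV m ρ c s c' f F ∧ I F) (f := ff m ρ c)
    (g := fun F => gg m ρ c (dmp (S0 m \ F)))
    (fun F _ => ff_local m ρ c F) (fun F G h => ff_mono m ρ c h)
    (by
      intro F _
      rw [gg_local, gg_local m ρ c (dmp (S0 m \ (F ∩ T2 m ρ c)))]
      have e : dmp (S0 m \ F) ∩ R2 m ρ c = dmp (S0 m \ (F ∩ T2 m ρ c)) ∩ R2 m ρ c := by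
        ext e
        simp only [mem_inter, mem_dmp, mem_sdiff]
        constructor
        · rintro ⟨⟨h1, h2⟩, h3⟩
          exact ⟨⟨h1, fun h => h2 h.1⟩, h3⟩
        · rintro ⟨⟨h1, h2⟩, h3⟩
          refine ⟨⟨h1, fun h => h2 ⟨h, ?_⟩⟩, h3⟩
          simp only [T2, mem_filter, Equiv.apply_symm_apply]
          exact ⟨h1, h3⟩
      rw [e])
    (by
      intro F G h hG
      refine gg_mono m ρ c ?_ hG
      intro e he
      rw [mem_dmp, mem_sdiff] at he ⊢
      exact ⟨he.1, fun h' => he.2 (h h')⟩)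
    (by
      rintro F G _ _ h1 h2 h3 ⟨hEV, hIF⟩
      refine ⟨?_, ?_⟩
      · revert hEV
        apply EV_sub
        · intro e he hU
          have hn := disj_1 hg e hU
          by_cases ht : e ∈ T1 m ρ c
          · exact (mem_inter.1 (h2 (mem_inter.2 ⟨he, ht⟩))).1
          · have : e ∈ F \ (T1 m ρ c ∪ T2 m ρ c) := by
              rw [mem_sdiff, mem_union]
              exact ⟨he, fun h => h.elim ht hn⟩
            rw [h1, mem_sdiff] at this
            exact this.1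
        · intro e he hU
          have hn := disj_2 hg e hU
          by_cases ht : e ∈ T2 m ρ c
          · exact (mem_inter.1 (h3 (mem_inter.2 ⟨he, ht⟩))).1
          · have : e ∈ G \ (T1 m ρ c ∪ T2 m ρ c) := by
              rw [mem_sdiff, mem_union]
              exact ⟨he, fun h => h.elim hn ht⟩
            rw [← h1, mem_sdiff] at this
            exact this.1
      · refine (I_agree hI ?_).mp hIF
        intro e he
        have n1 := disj_1 hg e (box_sub_U1 he)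
        have n2 := disj_2 hg e (box_sub_U2 he)
        have hn : e ∉ T1 m ρ c ∪ T2 m ρ c := by
          rw [mem_union]
          exact fun h => h.elim n2 n1
        constructor
        · intro h
          have : e ∈ F \ (T1 m ρ c ∪ T2 m ρ c) := mem_sdiff.2 ⟨h, hn⟩
          rw [h1] at this
          exact (mem_sdiff.1 this).1
        · intro h
          have : e ∈ G \ (T1 m ρ c ∪ T2 m ρ c) := mem_sdiff.2 ⟨h, hn⟩
          rw [← h1] at this
          exact (mem_sdiff.1 this).1)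
  have a4 : (δ * δ * δ) * ((δ * δ) * (δ * δ) * (δ * δ)) ≤
      Pr (fun _ => (1/2:ℝ)) (S0 m) (ff m ρ c) *
        Pr (fun _ => (1/2:ℝ)) (S0 m) (fun F => gg m ρ c (dmp (S0 m \ F))) :=
    mul_le_mul a1 a2 (by positivity) (Pr_nonneg okh _ _)
  refine (mul_le_mul_of_nonneg_left a4 a0).trans (a3.trans ?_)
  apply Pr_mono okh
  rintro F _ ⟨⟨⟨⟨z, hz, hr⟩, ⟨w, hw, hr'⟩⟩, hIF⟩, h1, h2⟩
  exact ⟨⟨open_part hg h1 hz hr, dual_part hg h2 hf1 hf2 hw hr'⟩, hIF⟩

section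

variable {B m ρ : ℕ} {c : ℤ} {s : Fin 4} {c' : ℤ}

theorem pr_reflI {s' : Fin 4} {c'' : ℤ}
    (hT : ∀ L : ℕ, (rfy 0).mp (tube s m ρ c' L) = tube s' m ρ c'' L)
    (hb : ∀ (L : ℕ) (w : Vtx), beyond s m L w → beyond s' m L (w.1, -1 - w.2))
    {I : Finset Edg → Prop} (hIy : ∀ F : Finset Edg, I ((rfy 0).mp F) ↔ I F) :
    Pr (fun _ => (1/2:ℝ)) (EU m ρ c s c') (fun F => EV m ρ c s c' (-1, -1) F ∧ I F) ≤
      Pr (fun _ => (1/2:ℝ)) (EU m ρ (-c) s' c'')
        (fun F => EV m ρ (-c) s' c'' (-1, 0) F ∧ I F) := by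
  have e1 : EU m ρ (-c) s' c'' = (rfy 0).mp (EU m ρ c s c') := by
    unfold EU
    rw [mp_union, mp_union, rfy_box, rfy_tube0, hT]
  rw [e1, LSym.pr]
  apply Pr_mono okh
  rintro F _ ⟨⟨⟨z, hz, hr⟩, ⟨w, hw, hr'⟩⟩, hIF⟩
  refine ⟨?_, (hIy F).mpr hIF⟩
  refine ⟨⟨((rfy 0).ψ z), ?_, ?_⟩, ⟨(w.1, -1 - w.2), hb _ _ hw, ?_⟩⟩
  · obtain ⟨z1, z2⟩ := z
    simpa using hz
  · have := (rfy 0).reach hr
    rw [LSym.image_inter, mp_union, rfy_box, rfy_tube0, rfy_ψ] at this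
    simpa using this
  · have := dmap_rfy hr'
    rw [← LSym.coe_mp, LSym.mp_sdiff, mp_union, mp_union, rfy_box, rfy_tube0, hT] at this
    simpa using this

theorem refl_EVI (hg : Geo B m ρ c s c')
    {I : Finset Edg → Prop} (hIy : ∀ F : Finset Edg, I ((rfy 0).mp F) ↔ I F) :
    ∃ (s' : Fin 4) (c'' : ℤ), Geo B m ρ (-c) s' c'' ∧
    Pr (fun _ => (1/2:ℝ)) (EU m ρ c s c') (fun F => EV m ρ c s c' (-1, -1) F ∧ I F) ≤
      Pr (fun _ => (1/2:ℝ)) (EU m ρ (-c) s' c'')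
        (fun F => EV m ρ (-c) s' c'' (-1, 0) F ∧ I F) := by
  obtain ⟨g1, g2, g3, g4, g5, g6⟩ := hg
  rcases fin4 s with rfl | rfl | rfl | rfl
  · refine ⟨0, -c', ⟨g1, g2, g3, by rwa [abs_neg], by rwa [abs_neg], fun _ => ?_⟩,
      pr_reflI (fun L => ?_) (fun L w hw => ?_) hIy⟩
    · have := g6 rfl
      have e : -c - -c' = -(c - c') := by ring
      rw [e, abs_neg]
      exact this
    · exact rfy_tube0 m ρ c' L
    · simpa [beyond] using hw
  · refine ⟨3, c', ⟨g1, g2, g3, by rwa [abs_neg], g5, fun h => absurd h (by decide)⟩,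
      pr_reflI (fun L => ?_) (fun L w hw => ?_) hIy⟩
    · rw [tube1, tube3, rfy_RE]
      congr 1 <;> ring
    · have : (m:ℤ) + L ≤ w.2 := by simpa [beyond] using hw
      have h2 : -1 - w.2 < -(m:ℤ) - L := by omega
      simpa [beyond] using h2
  · refine ⟨2, -c', ⟨g1, g2, g3, by rwa [abs_neg], by rwa [abs_neg], fun h => absurd h (by decide)⟩,
      pr_reflI (fun L => ?_) (fun L w hw => ?_) hIy⟩
    · rw [tube2, tube2, rfy_RE]
      congr 1 <;> ring
    · simpa [beyond] using hw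
  · refine ⟨1, c', ⟨g1, g2, g3, by rwa [abs_neg], g5, fun h => absurd h (by decide)⟩,
      pr_reflI (fun L => ?_) (fun L w hw => ?_) hIy⟩
    · rw [tube1, tube3, rfy_RE]
      congr 1 <;> ring
    · have : w.2 < -(m:ℤ) - L := by simpa [beyond] using hw
      have h2 : (m:ℤ) + L ≤ -1 - w.2 := by omega
      simpa [beyond] using h2

/-- `RA` and the inner event only depend on the edges of `S0`. -/
theorem pr_RA_localI {I : Finset Edg → Prop} (hI : ∀ F, I F ↔ I (F ∩ boxE (m / 8))) :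
    Pr (fun _ => (1/2:ℝ)) (RE (-(13 * m : ℕ)) (14 * m : ℕ) (-(13 * m : ℕ)) (14 * m : ℕ))
      (fun F => RA (0, 0) m (↑F) ∧ I F) =
    Pr (fun _ => (1/2:ℝ)) (S0 m) (fun F => RA (0, 0) m (↑F) ∧ I F) := by
  apply Pr_local
  · unfold S0
    rintro ⟨x, y, _ | _⟩ h
    · rw [mem_RE_false] at h ⊢; push_cast; omega
    · rw [mem_RE_true] at h ⊢; push_cast; omega
  · intro F _
    have hb : boxE (m / 8) ⊆ S0 m := by
      unfold S0 boxE
      rintro ⟨x, y, _ | _⟩ h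
      · rw [mem_RE_false] at h ⊢; omega
      · rw [mem_RE_true] at h ⊢; omega
    rw [← I_loc hI hb F]
    refine and_congr_left fun _ => ?_
    unfold H984P.RA
    have e1 : (↑F : Set Edg) ∩ ↑(H984P.PR (0, 0) m) = ↑(F ∩ S0 m) ∩ ↑(H984P.PR (0, 0) m) := by
      rw [coe_inter_eq]
      unfold H984P.PR S0
      rintro ⟨x, y, _ | _⟩ h
      · rw [mem_RE_false] at h ⊢; simp only at h; omega
      · rw [mem_RE_true] at h ⊢; simp only at h; omega
    have e2 : H984P.dE (H984P.DR (0, 0) m) \ (↑F : Set Edg) =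
        H984P.dE (H984P.DR (0, 0) m) \ ↑(F ∩ S0 m) := by
      ext ⟨x, y, _ | _⟩
      · simp only [Set.mem_sdiff, H984P.dE, H984P.DR, Set.mem_ofPred_eq, dl_f, mem_RE_true,
          coe_inter, Set.mem_inter_iff, mem_coe, S0, mem_RE_false]
        constructor
        · rintro ⟨h1, h2⟩
          exact ⟨h1, fun h => h2 h.1⟩
        · rintro ⟨h1, h2⟩
          refine ⟨h1, fun h => h2 ⟨h, ?_⟩⟩
          omega
      · simp only [Set.mem_sdiff, H984P.dE, H984P.DR, Set.mem_ofPred_eq, dl_t, mem_RE_false,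
          coe_inter, Set.mem_inter_iff, mem_coe, S0, mem_RE_true]
        constructor
        · rintro ⟨h1, h2⟩
          exact ⟨h1, fun h => h2 h.1⟩
        · rintro ⟨h1, h2⟩
          refine ⟨h1, fun h => h2 ⟨h, ?_⟩⟩
          omega
    rw [e1, e2]

end

/-- separation of the two arms, with an inner event -/
theorem sep_inner : ∀ c1 C1 : ℝ, 0 < c1 → 0 < C1 → ∃ (m0 : ℕ) (κ : ℝ), 0 < κ ∧ ∀ m : ℕ,
    m0 ≤ m → ∀ I : Finset Edg → Prop, (∀ F, I F ↔ I (F ∩ boxE (m / 8))) →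
    (∀ (s : Fin 4) (F : Finset Edg), I ((sy s).toLSym.mp F) ↔ I F) →
    (∀ F, I ((rfx 0).mp F) ↔ I F) → (∀ F, I ((rfy 0).mp F) ↔ I F) → ∀ x : ℝ, 0 < x →
    c1 * x ≤ pI m I → pI (m / 2) I ≤ C1 * x →
    κ * x ≤ Pr (fun _ => (1/2:ℝ))
      (RE (-(13 * m : ℕ)) (14 * m : ℕ) (-(13 * m : ℕ)) (14 * m : ℕ))
      (fun F => RA (0, 0) m ↑F ∧ I F) := by
  intro c1 C1 hc1 hC1
  obtain ⟨B, m₀, K, hK, h⟩ := rec_genI (η := c1 / (2 * C1)) (by positivity)
  obtain ⟨δ, hδ, hmain⟩ := mainI B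
  refine ⟨m₀, c1 / (4 * K) * δ, by positivity, ?_⟩
  intro m hm I hI hIs hIx hIy x hx h1 h2
  obtain ⟨ρ, c, s, c', f0, hg, hf, hpr⟩ : ∃ (ρ : ℕ) (c : ℤ) (s : Fin 4) (c' f0 : ℤ),
      Geo B m ρ c s c' ∧ (f0 = 0 ∨ f0 = -1) ∧ c1 / (4 * K) * x ≤
        Pr (fun _ => (1/2:ℝ)) (EU m ρ c s c') (fun F => EV m ρ c s c' (f0, f0) F ∧ I F) := by
    by_contra hcon
    push Not at hcon
    have h3 := h m hm I hI hIs (c1 / (4 * K) * x) (by positivity)
      (fun ρ c s c' f0 hg hf => (hcon ρ c s c' f0 hg hf).le)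
    have h4 : K * (c1 / (4 * K) * x) = c1 / 4 * x := by
      field_simp
    have h5 : c1 / (2 * C1) * pI (m / 2) I ≤ c1 / 2 * x := by
      calc c1 / (2 * C1) * pI (m / 2) I ≤ c1 / (2 * C1) * (C1 * x) := by gcongr
        _ = c1 / 2 * x := by field_simp
    rw [h4] at h3
    nlinarith [mul_pos hc1 hx]
  rw [pr_RA_localI hI]
  calc c1 / (4 * K) * δ * x = (c1 / (4 * K) * x) * δ := by ring
    _ ≤ Pr (fun _ => (1/2:ℝ)) (EU m ρ c s c')
        (fun F => EV m ρ c s c' (f0, f0) F ∧ I F) * δ :=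
        mul_le_mul_of_nonneg_right hpr hδ.le
    _ ≤ _ := by
        rcases hf with rfl | rfl
        · refine (hmain hg (by norm_num) (by norm_num) hI).trans ?_
          exact Pr_mono okh fun F _ hF => ⟨RA_of_RAg hF.1, hF.2⟩
        · obtain ⟨s', c'', hg', hle⟩ := refl_EVI hg hIy
          refine (mul_le_mul_of_nonneg_right hle hδ.le).trans ?_
          refine (hmain hg' (by norm_num) (by norm_num) hI).trans ?_
          have e := LSym.pr (rfx 0) (1/2) (S0 m) (fun F => RA (0, 0) m (↑F) ∧ I F)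
          rw [rfx_S0] at e
          rw [e]
          have hm1 : 1 ≤ m := by
            have h6 := hg'.ρpos
            have h7 := hg'.small
            omega
          exact Pr_mono okh fun F _ hF => ⟨RA_of_RAg' hm1 hF.1, (hIx F).mpr hF.2⟩

end H492S
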