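import Pool.Agent.Y492.SEP.Step2
import Pool.Agent.H985R3.TA.M1
import Pool.Agent.H985R3.TA.M2

/-!
# Separation of two arms with an inner event: the two extensions
-/

set_option autoImplicit false

namespace H492S

open H974 Finset H985T

theorem box_sub {a b : ℕ} (h : a ≤ b) : boxE a ⊆ boxE b := boxE_mono h

theorem I_loc {I : Finset Edg → Prop} {Q S : Finset Edg} (hI : ∀ F, I F ↔ I (F ∩ Q))
    (hS : Q ⊆ S) (F : Finset Edg) : I F ↔ I (F ∩ S) := by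
  rw [hI, hI (F ∩ S)]
  have e1 : F ∩ S ∩ Q = F ∩ Q := by
    ext e
    simp only [Finset.mem_inter]
    constructor
    · rintro ⟨⟨h1, _⟩, h3⟩
      exact ⟨h1, h3⟩
    · rintro ⟨h1, h3⟩
      exact ⟨⟨h1, hS h3⟩, h3⟩
  rw [e1]

theorem mid1I {κ : ℝ} {n : ℕ} (hW : H12S.Win (1 / 2) κ n) {m ρ r l k : ℕ} {c c' f0 : ℤ}
    {s : Fin 4} (hl : 1 ≤ l) (hr : 32 * l ≤ r) (hρ : 16 * r ≤ ρ) (hk : ρ ≤ k * l)
    (hc : |c| + 20 * ρ ≤ m) (_hc' : |c'| + 20 * ρ ≤ m) (hs : s = 0 → 6 * (ρ:ℤ) ≤ |c - c'|)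
    (hn : 2 * l ≤ n) (hf : f0 = 0 ∨ f0 = -1)
    {I : Finset Edg → Prop} (hI : ∀ F, I F ↔ I (F ∩ boxE (m / 8))) :
    H12S.PQ (1 / 2) (boxE m) (fun F => ((Lv m ρ c ↑F ∧ Gd m ρ r (4 * l) c ↑F) ∧
        LfS m ρ s c' (f0, f0) ↑F) ∧ I F) * κ ^ (4 * (2 * (6 * k) + 1) ^ 2) ≤
    H12S.PQ (1 / 2) (boxE m ∪ tubeD m ρ c) (fun F => (Tv m ρ c ↑F ∧
        LfS m ρ s c' (f0, f0) ↑F) ∧ I F) := by
  have hρ1 : 1 ≤ ρ := by omega
  have hrρ : r ≤ ρ := by omega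
  have hcorner : corner (0, 0) (f0, f0) := by
    unfold corner
    simp only [zero_sub]
    exact ⟨hf, hf⟩
  have hcc : |c| + 4 * ρ ≤ m := by
    have : (0:ℤ) ≤ ρ := Int.natCast_nonneg ρ
    omega
  have h1 := step1I hW hl hr hρ hk hcc hn hcorner (X := ∅) (Finset.disjoint_empty_left _)
    (Ws := M1_Ws m ρ s c') (M1_out hρ1 hc hs) hI
  simp only [Finset.union_empty] at h1
  have h2 : H12S.PQ (1 / 2) (boxE m ∪ tubeD m ρ c) (fun F =>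
      ((Lv m ρ c ↑F ∧ Gd m ρ r (4 * l) c ↑F) ∧
        ∃ w ∈ M1_Ws m ρ s c', DReach (↑(boxE m) \ ↑F : Set Edg) (f0, f0) w) ∧ I F) =
      H12S.PQ (1 / 2) (boxE m) (fun F => ((Lv m ρ c ↑F ∧ Gd m ρ r (4 * l) c ↑F) ∧
        LfS m ρ s c' (f0, f0) ↑F) ∧ I F) := by
    have h3 : H12S.PQ (1 / 2) (boxE m) (fun F => ((Lv m ρ c ↑F ∧ Gd m ρ r (4 * l) c ↑F) ∧
        LfS m ρ s c' (f0, f0) ↑F) ∧ I F) = H12S.PQ (1 / 2) (boxE m) (fun F =>
      ((Lv m ρ c ↑F ∧ Gd m ρ r (4 * l) c ↑F) ∧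
        ∃ w ∈ M1_Ws m ρ s c', DReach (↑(boxE m) \ ↑F : Set Edg) (f0, f0) w) ∧ I F) := by
      refine Pr_congr fun F _ => ?_
      rw [M1_LfS_iff]
    rw [h3]
    refine Pr_local Finset.subset_union_left fun F _ => ?_
    rw [← M1_Lv_local, ← M1_Gd_local hrρ hc, M1_sdiff,
      ← I_loc hI (box_sub (Nat.div_le_self m 8)) F]
  have h4 : H12S.PQ (1 / 2) (boxE m ∪ tubeD m ρ c) (fun F => (Tv m ρ c ↑F ∧
        ∃ w ∈ M1_Ws m ρ s c', DReach (↑(boxE m) \ ↑F : Set Edg) (f0, f0) w) ∧ I F) =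
      H12S.PQ (1 / 2) (boxE m ∪ tubeD m ρ c) (fun F => (Tv m ρ c ↑F ∧
        LfS m ρ s c' (f0, f0) ↑F) ∧ I F) := by
    refine Pr_congr fun F _ => ?_
    rw [M1_LfS_iff]
  rw [← h2, ← h4]
  exact h1

theorem mid2I {κ : ℝ} {n : ℕ} (hW : H12S.Win (1 / 2) κ n) {m ρ r l k : ℕ} {c c' f0 : ℤ}
    {s : Fin 4} (hl : 1 ≤ l) (hr : 32 * l ≤ r) (hρ : 16 * r ≤ ρ) (hk : ρ ≤ k * l)
    (hc : |c| + 20 * ρ ≤ m) (hc' : |c'| + 20 * ρ ≤ m) (hs : s = 0 → 6 * (ρ:ℤ) ≤ |c - c'|)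
    (hn : 2 * l ≤ n) (hf : f0 = 0 ∨ f0 = -1)
    {I : Finset Edg → Prop} (hI : ∀ F, I F ↔ I (F ∩ boxE (m / 8)))
    (hIs : ∀ (s : Fin 4) (F : Finset Edg), I ((sy s).toLSym.mp F) ↔ I F) :
    H12S.PQ (1 / 2) (boxE m ∪ tubeD m ρ c) (fun F => (Tv m ρ c ↑F ∧
        LfS m ρ s c' (f0, f0) ↑F ∧ GpS m ρ r (4 * l) s c' ↑F) ∧ I F) *
          κ ^ (4 * (2 * (6 * k) + 1) ^ 2) ≤
    H12S.PQ (1 / 2) (EU m ρ c s (cc s c')) (fun F => EV m ρ c s (cc s c') (f0, f0) F ∧ I F) := by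
  have hρ1 : 1 ≤ ρ := by omega
  have hok : Ok (fun _ : Edg => (1 / 2 : ℝ)) := fun _ => by norm_num
  obtain ⟨f1, hf1, hff⟩ := sy_face s hf
  have hff' : (sy s).ψf (f1, f1) = (f0, f0) := by rw [← hff, sy_invol_f]
  have hcor : corner (0, 0) (f1, f1) := by unfold corner; simp only; omega
  set X : Finset Edg := (sy s).toLSym.mp (tubeD m ρ c) with hXdef
  have hX := M2_disj (s := s) (c' := c') hc hs
  rw [← hXdef] at hX
  have hst := step2I hW hl hr hρ hk (by omega) hn hcor hX (M2_hZs (c' := c') hρ1 hc hs) hI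
  -- the images of the sets of edges
  have hmp1 : (sy s).toLSym.mp (boxE m ∪ X) = boxE m ∪ tubeD m ρ c := by
    rw [M2_mp_union, sy_box, hXdef, M2_mp_mp]
  have hmp2 : (sy s).toLSym.mp (boxE m ∪ tubeD m ρ c' ∪ X) = EU m ρ c s (cc s c') := by
    rw [M2_mp_union, M2_mp_union, sy_box, hXdef, M2_mp_mp]
    rw [← M2_EU]
    conv_lhs => rw [tubeD, LSym.mp_sdiff, sy_box, sy_tube]
  -- first inequality
  have h1 : H12S.PQ (1 / 2) (boxE m ∪ tubeD m ρ c) (fun F => (Tv m ρ c ↑F ∧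
      LfS m ρ s c' (f0, f0) ↑F ∧ GpS m ρ r (4 * l) s c' ↑F) ∧ I F) ≤
      H12S.PQ (1 / 2) (boxE m ∪ tubeD m ρ c' ∪ X)
        (fun F => ((Lf m ρ c' (f1, f1) ↑F ∧ Gp m ρ r (4 * l) c' ↑F) ∧
          ∃ z ∈ M2_Zs m ρ c s, Reach (↑F ∩ ↑(boxE m ∪ X) : Set Edg) (0, 0) z) ∧ I F) := by
    rw [← hmp1]
    unfold H12S.PQ
    rw [LSym.pr]
    rw [Pr_local (M2_sub (boxE m) (tubeD m ρ c') X)]
    · apply Pr_mono hok
      rintro F - ⟨⟨hTv, hLf, hGp⟩, hIF⟩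
      refine ⟨?_, (hIs s F).mp hIF⟩
      rw [LSym.coe_mp] at hTv hLf hGp
      refine ⟨⟨?_, ?_⟩, ?_⟩
      · unfold LfS at hLf
        rw [M2_img, hff] at hLf
        exact hLf
      · unfold GpS at hGp
        rw [M2_img] at hGp
        exact hGp
      · obtain ⟨z2, hz2⟩ := hTv
        refine ⟨(sy s).ψ ((m:ℤ) + 10 * ρ, z2), ⟨z2, M2_end hρ1 hz2, rfl⟩, ?_⟩
        have h3 := (sy s).toLSym.reach hz2
        rw [sy_origin] at h3
        refine h3.mono ?_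
        rw [M2_union]
        rintro e ⟨e', ⟨he1, he2⟩, rfl⟩
        rw [← hmp1, LSym.coe_mp] at he2
        refine ⟨?_, ?_⟩
        · obtain ⟨e'', he3, rfl⟩ := he1
          rw [sy_invol]
          exact he3
        · obtain ⟨e'', he3, rfl⟩ := he2
          rw [sy_invol]
          exact he3
    · intro F _
      have e1 := M2_e1 F (boxE m) X
      have e2 := M2_e2 F (boxE m ∪ X)
      have e3 := I_loc hI ((box_sub (Nat.div_le_self m 8)).trans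
        (Finset.subset_union_left (s₂ := X))) F
      rw [e2, ← e3]
      constructor
      · rintro ⟨⟨⟨ha, hb⟩, hc⟩, hd⟩
        exact ⟨⟨⟨M2_Lf_congr e1 ha, M2_Gp_congr (by omega) hc' e1 hb⟩, hc⟩, hd⟩
      · rintro ⟨⟨⟨ha, hb⟩, hc⟩, hd⟩
        exact ⟨⟨⟨M2_Lf_congr e1.symm ha, M2_Gp_congr (by omega) hc' e1.symm hb⟩, hc⟩, hd⟩
  -- last inequality
  have h2 : H12S.PQ (1 / 2) (boxE m ∪ tubeD m ρ c' ∪ X) (fun F => (Tf m ρ c' (f1, f1) ↑F ∧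
      ∃ z ∈ M2_Zs m ρ c s, Reach (↑F ∩ ↑(boxE m ∪ X) : Set Edg) (0, 0) z) ∧ I F) ≤
      H12S.PQ (1 / 2) (EU m ρ c s (cc s c'))
        (fun F => EV m ρ c s (cc s c') (f0, f0) F ∧ I F) := by
    rw [← hmp2]
    unfold H12S.PQ
    rw [LSym.pr]
    apply Pr_mono hok
    rintro F - ⟨⟨⟨w, hw1, hw2⟩, z, ⟨z2, hz2, rfl⟩, hz⟩, hIF⟩
    refine ⟨?_, (hIs s F).mpr hIF⟩
    refine ⟨⟨((m:ℤ) + 10 * ρ, z2), rfl, ?_⟩, ⟨(sy s).ψf w, ?_, ?_⟩⟩
    · have h3 := (sy s).toLSym.reach hz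
      rw [sy_origin, sy_invol_v] at h3
      refine h3.mono ?_
      rw [M2_union, ← hmp1, LSym.coe_mp, LSym.coe_mp]
      rintro e ⟨e', ⟨he1, he2⟩, rfl⟩
      exact ⟨Set.mem_image_of_mem _ he1, Set.mem_image_of_mem _ he2⟩
    · obtain ⟨w1, w2⟩ := w
      simp only at hw1
      unfold beyond
      rcases SYM_cases s with rfl | rfl | rfl | rfl
      · rw [if_pos rfl, SYM_0f]
        push_cast
        exact hw1
      · rw [if_neg (by decide), if_pos rfl, SYM_1f]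
        push_cast
        exact hw1
      · rw [if_neg (by decide), if_neg (by decide), if_pos rfl, SYM_2f]
        push_cast
        omega
      · rw [if_neg (by decide), if_neg (by decide), if_neg (by decide), SYM_3f]
        push_cast
        omega
    · have h3 := (sy s).dreach hw2
      rw [hff'] at h3
      refine h3.mono ?_
      rintro e ⟨e', ⟨he1, he2⟩, rfl⟩
      rw [Finset.mem_coe, Finset.mem_union] at he1
      rw [Finset.mem_coe, Finset.mem_sdiff, Finset.mem_union, Finset.mem_union]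
      refine ⟨?_, ?_⟩
      · rcases he1 with he1 | he1
        · left; left
          rw [sy_mem_box]
          exact he1
        · right
          rw [← sy_tube, LSym.mem_mp, SYM_symm, sy_invol]
          exact he1
      · rw [LSym.mem_mp, SYM_symm, sy_invol]
        exact he2
  have hκ : (0:ℝ) ≤ κ ^ (4 * (2 * (6 * k) + 1) ^ 2) := pow_nonneg hW.kpos.le _
  exact (mul_le_mul_of_nonneg_right h1 hκ).trans (hst.trans h2)

end H492S
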