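import Pool.Agent.Y492.SEP.Bad
import Pool.Agent.H985R3.TA.SEL
import Pool.Agent.H985R3.TA.LEV

/-!
# Separation of two arms with an inner event: selection of the landing places and recursion
-/

set_option autoImplicit false

namespace H492S

open H974 Finset H985T

theorem bad_GdI : ∀ η : ℝ, 0 < η → ∃ B₀ : ℕ, ∀ B, B₀ ≤ B → ∃ A₀ : ℕ, ∀ A, A₀ ≤ A →
    ∀ (l m ρ r : ℕ) (c f0 : ℤ) (U : Finset Edg), 1 ≤ l → r = A * l → ρ = B * r →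
      |c| + 20 * ρ ≤ m → (f0 = 0 ∨ f0 = -1) → boxE m ⊆ U → ∀ I : Finset Edg → Prop,
      (∀ F, I F ↔ I (F ∩ boxE (m / 8))) →
      (∀ F : Finset Edg, I ((sy 2).toLSym.mp F) ↔ I F) →
      H12S.PQ (1 / 2) U (fun F => (A2g (m / 2) (f0, f0) ↑F ∧ I F) ∧ ¬ Gd m ρ r (4 * l) c ↑F) ≤
        η * pI (m / 2) I := bad_GdI_of H3d_prob

theorem bad_selI : ∀ η : ℝ, 0 < η → ∃ D₀ : ℕ, 1 ≤ D₀ ∧ ∀ D, D₀ ≤ D → ∀ m ρ : ℕ, 1 ≤ ρ →
    D * ρ ≤ m → m ≤ 2 * D * ρ → ∃ r0 R : ℕ, 10 * ρ ≤ R ∧ 2 * R + 40 * ρ ≤ r0 ∧ 8 * r0 ≤ m ∧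
      ∀ I : Finset Edg → Prop, (∀ F, I F ↔ I (F ∩ boxE (m / 8))) →
      (∀ F : Finset Edg, I ((sy 2).toLSym.mp F) ↔ I F) →
      H12S.PQ (1 / 2) (boxE m) (fun F => (A2g m (0, 0) ↑F ∧ I F) ∧ ¬ SelGood m ρ r0 R ↑F) ≤
        η * pI (m / 2) I := bad_selI_of H3d_prob

/-- symmetry of one event -/
theorem sum_symI {m ρ : ℕ} {M : ℝ} {I : Finset Edg → Prop}
    (hIs : ∀ (s : Fin 4) (F : Finset Edg), I ((sy s).toLSym.mp F) ↔ I F)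
    (hM : ∀ (s : Fin 4) (c c' f0 : ℤ), (f0 = 0 ∨ f0 = -1) → |c| + 20 * ρ ≤ m →
      |c'| + 20 * ρ ≤ m → (s = 0 → 6 * (ρ:ℤ) ≤ |c - c'|) →
      H12S.PQ (1 / 2) (boxE m) (fun F => (Lv m ρ c ↑F ∧ LfS m ρ s c' (f0, f0) ↑F) ∧ I F) ≤ M)
    (s s' : Fin 4) (c c' : ℤ) (hc : |c| + 20 * ρ ≤ m) (hc' : |c'| + 20 * ρ ≤ m)
    (hs : s = s' → 6 * (ρ:ℤ) ≤ |c - c'|) :
    H12S.PQ (1 / 2) (boxE m) (fun F => (Lv m ρ c ((sy s).φ '' ↑F) ∧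
      LfS m ρ s' c' (0, 0) ↑F) ∧ I F) ≤ M := by
  obtain ⟨s'', h0, h1, h2, -⟩ := sy_mul s s'
  obtain ⟨f1, hf1, hf2⟩ := sy_face s (f0 := 0) (Or.inl rfl)
  have key := (sy s).toLSym.pr (1 / 2) (boxE m)
    (fun F => (Lv m ρ c ↑F ∧ LfS m ρ s'' c' (f1, f1) ↑F) ∧ I F)
  rw [sy_box] at key
  have e1 : (fun F : Finset Edg => (Lv m ρ c ((sy s).φ '' ↑F) ∧ LfS m ρ s' c' (0, 0) ↑F) ∧ I F) =
      (fun F : Finset Edg => (Lv m ρ c ↑((sy s).toLSym.mp F) ∧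
        LfS m ρ s'' c' (f1, f1) ↑((sy s).toLSym.mp F)) ∧ I ((sy s).toLSym.mp F)) := by
    funext F
    have e2 : (↑((sy s).toLSym.mp F) : Set Edg) = (sy s).φ '' ↑F := LSym.coe_mp _ F
    rw [e2, hIs s F]
    unfold LfS
    have e3 : (sy s'').φ '' ((sy s).φ '' ↑F) = (sy s').φ '' (↑F : Set Edg) := by
      rw [Set.image_image]
      apply Set.image_congr
      intro e _
      exact h1 e
    have e4 : (sy s'').ψf (f1, f1) = (sy s').ψf (0, 0) := by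
      rw [← hf2, h2]
    rw [e3, e4]
  show Pr (fun _ => 1 / 2) (boxE m) _ ≤ M
  rw [e1, ← key]
  exact hM s'' c c' f1 hf1 hc hc' (fun h => hs (h0.1 h))

theorem sel_sumI :
    ∀ η : ℝ, 0 < η → ∃ D₀ : ℕ, 50 ≤ D₀ ∧ ∀ D, D₀ ≤ D → ∀ m ρ : ℕ, 1 ≤ ρ →
    D * ρ ≤ m → m ≤ 2 * D * ρ → ∀ I : Finset Edg → Prop,
    (∀ F, I F ↔ I (F ∩ boxE (m / 8))) →
    (∀ (s : Fin 4) (F : Finset Edg), I ((sy s).toLSym.mp F) ↔ I F) → ∀ M : ℝ, 0 ≤ M →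
    (∀ (s : Fin 4) (c c' f0 : ℤ), (f0 = 0 ∨ f0 = -1) → |c| + 20 * ρ ≤ m → |c'| + 20 * ρ ≤ m →
      (s = 0 → 6 * (ρ:ℤ) ≤ |c - c'|) →
      H12S.PQ (1 / 2) (boxE m) (fun F => (Lv m ρ c ↑F ∧ LfS m ρ s c' (f0, f0) ↑F) ∧ I F) ≤ M) →
    pI m I ≤ 16 * (4 * (D:ℝ) + 1) ^ 2 * M + η * pI (m / 2) I := by
  classical
  intro η hη
  obtain ⟨D₀, hD₀, hD⟩ := bad_selI η hη
  refine ⟨max 50 D₀, le_max_left _ _, ?_⟩
  intro D hDD m ρ hρ h1 h2 I hI hIs M hM0 hM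
  obtain ⟨r0, R, hR, hr0, hm, hb0⟩ := hD D (le_trans (le_max_right _ _) hDD) m ρ hρ h1 h2
  have hb := hb0 I hI (hIs 2)
  have hok : Ok (fun _ : Edg => (1 / 2 : ℝ)) := okq (by norm_num) (by norm_num)
  -- the events
  set J : Finset ((Fin 4 × Fin 4) × (ℤ × ℤ)) :=
    (univ ×ˢ univ) ×ˢ (Icc (-(2 * D : ℤ)) (2 * D) ×ˢ Icc (-(2 * D : ℤ)) (2 * D)) with hJ
  let Ev : (Fin 4 × Fin 4) × (ℤ × ℤ) → Finset Edg → Prop := fun j F =>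
    (|(ρ:ℤ) * j.2.1| + 20 * ρ ≤ m ∧ |(ρ:ℤ) * j.2.2| + 20 * ρ ≤ m ∧
      (j.1.1 = j.1.2 → 6 * (ρ:ℤ) ≤ |(ρ:ℤ) * j.2.1 - ρ * j.2.2|)) ∧
      ((Lv m ρ (ρ * j.2.1) ((sy j.1.1).φ '' ↑F) ∧ LfS m ρ j.1.2 (ρ * j.2.2) (0, 0) ↑F) ∧ I F)
  have hEv : ∀ j ∈ J, Pr (fun _ => 1 / 2) (boxE m) (Ev j) ≤ M := by
    intro j _
    by_cases hcond : |(ρ:ℤ) * j.2.1| + 20 * ρ ≤ m ∧ |(ρ:ℤ) * j.2.2| + 20 * ρ ≤ m ∧
      (j.1.1 = j.1.2 → 6 * (ρ:ℤ) ≤ |(ρ:ℤ) * j.2.1 - ρ * j.2.2|)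
    · have hle : Pr (fun _ => 1 / 2) (boxE m) (Ev j) ≤
          Pr (fun _ => 1 / 2) (boxE m) (fun F => (Lv m ρ (ρ * j.2.1) ((sy j.1.1).φ '' ↑F) ∧
            LfS m ρ j.1.2 (ρ * j.2.2) (0, 0) ↑F) ∧ I F) := Pr_mono hok (fun F _ h => h.2)
      exact hle.trans (sum_symI hIs hM j.1.1 j.1.2 _ _ hcond.1 hcond.2.1 hcond.2.2)
    · have h0 : Pr (fun _ => 1 / 2) (boxE m) (Ev j) = 0 := by
        unfold Pr
        rw [Ex_congr (g := fun _ => 0) (fun F _ => ind_not_of (fun h => hcond h.1)), Ex_const]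
      rw [h0]
      exact hM0
  have hk : ∀ k : ℤ, |(ρ:ℤ) * k| + 20 * ρ ≤ m → k ∈ Icc (-(2 * D : ℤ)) (2 * D) := by
    intro k hk
    rw [Finset.mem_Icc, ← abs_le]
    by_contra hlt
    push Not at hlt
    have h3 : (ρ:ℤ) * (2 * D + 1) ≤ |(ρ:ℤ) * k| := by
      rw [abs_mul, abs_of_nonneg (by positivity : (0:ℤ) ≤ ρ)]
      apply mul_le_mul_of_nonneg_left _ (by positivity)
      omega
    have h4 : (m:ℤ) ≤ 2 * D * ρ := by exact_mod_cast h2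
    have h5 : (1:ℤ) ≤ ρ := by exact_mod_cast hρ
    nlinarith
  have hmain : pI m I ≤ Pr (fun _ => 1 / 2) (boxE m)
      (fun F => (A2g m (0, 0) ↑F ∧ I F) ∧ ¬ SelGood m ρ r0 R ↑F) +
      Pr (fun _ => 1 / 2) (boxE m) (fun F => ∃ j ∈ J, Ev j F) := by
    unfold pI
    refine le_trans (Pr_mono hok ?_) (Pr_or_le hok (boxE m) _ _)
    intro F hF hA'
    by_cases hG : SelGood m ρ r0 R ↑F
    · right
      obtain ⟨s, s', k, k', g1, g2, g3, g4, g5⟩ := sel_det hρ hR hr0 hm hA'.1 hG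
      refine ⟨((s, s'), (k, k')), ?_, ⟨g1, g2, g3⟩, ⟨g4, g5⟩, hA'.2⟩
      rw [hJ, Finset.mem_product, Finset.mem_product, Finset.mem_product]
      exact ⟨⟨Finset.mem_univ _, Finset.mem_univ _⟩, hk k g1, hk k' g2⟩
    · left
      exact ⟨hA', hG⟩
  have hsum : Pr (fun _ => 1 / 2) (boxE m) (fun F => ∃ j ∈ J, Ev j F) ≤
      16 * (4 * (D:ℝ) + 1) ^ 2 * M := by
    refine (Pr_exists_le hok (boxE m) J Ev).trans ?_
    refine (Finset.sum_le_card_nsmul J _ M hEv).trans (le_of_eq ?_)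
    have hcard : (J.card : ℝ) = 16 * (4 * (D:ℝ) + 1) ^ 2 := by
      rw [hJ, Finset.card_product, Finset.card_product, Finset.card_product, Finset.card_univ,
        Fintype.card_fin, Int.card_Icc]
      have : (2 * (D:ℤ) + 1 - -(2 * D)).toNat = 4 * D + 1 := by omega
      rw [this]
      push_cast
      ring
    rw [nsmul_eq_mul, hcard]
  have hb' : Pr (fun _ => 1 / 2) (boxE m)
      (fun F => (A2g m (0, 0) ↑F ∧ I F) ∧ ¬ SelGood m ρ r0 R ↑F) ≤ η * pI (m / 2) I := hb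
  linarith

theorem rec_genI {η : ℝ} (hη : 0 < η) :
    ∃ (B m₀ : ℕ) (K : ℝ), 0 < K ∧ ∀ m, m₀ ≤ m → ∀ I : Finset Edg → Prop,
      (∀ F, I F ↔ I (F ∩ boxE (m / 8))) →
      (∀ (s : Fin 4) (F : Finset Edg), I ((sy s).toLSym.mp F) ↔ I F) → ∀ Y : ℝ, 0 ≤ Y →
      (∀ (ρ : ℕ) (c : ℤ) (s : Fin 4) (c' f0 : ℤ), Geo B m ρ c s c' → (f0 = 0 ∨ f0 = -1) →
        Pr (fun _ => 1 / 2) (EU m ρ c s c') (fun F => EV m ρ c s c' (f0, f0) F ∧ I F) ≤ Y) →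
      pI m I ≤ K * Y + η * pI (m / 2) I := by
  obtain ⟨κ, hκ, hW⟩ := H12S.win_half
  obtain ⟨D, hD50, hD⟩ := sel_sumI (η / 4) (by positivity)
  set Q : ℝ := 16 * (4 * (D:ℝ) + 1) ^ 2 with hQ
  have hQ0 : 0 < Q := by positivity
  obtain ⟨B₁, hB₁⟩ := bad_GdI (η / (4 * Q)) (by positivity)
  obtain ⟨A₁, hA₁⟩ := hB₁ (max B₁ 16) (le_max_left _ _)
  have hA₁' := hA₁ (max A₁ 32) (le_max_left _ _)
  set b1 := max B₁ 16 with hb1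
  set a1 := max A₁ 32 with ha1
  have hb16 : 16 ≤ b1 := le_max_right _ _
  have ha32 : 32 ≤ a1 := le_max_right _ _
  set N1 := 4 * (2 * (6 * (a1 * b1)) + 1) ^ 2 with hN1
  have hκN1 : 0 < κ ^ N1 := pow_pos hκ _
  obtain ⟨B₂, hB₂⟩ := bad_GpI (κ ^ N1 * η / (4 * Q)) (by positivity)
  obtain ⟨A₂, hA₂⟩ := hB₂ (max B₂ 16) (le_max_left _ _)
  have hA₂' := hA₂ (max A₂ 32) (le_max_left _ _)
  set b2 := max B₂ 16 with hb2
  set a2 := max A₂ 32 with ha2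
  have hb16' : 16 ≤ b2 := le_max_right _ _
  have ha32' : 32 ≤ a2 := le_max_right _ _
  set N2 := 4 * (2 * (6 * (a2 * b2)) + 1) ^ 2 with hN2
  have hκN2 : 0 < κ ^ N2 := pow_pos hκ _
  clear_value a1 b1 a2 b2
  set W := a1 * b1 * a2 * b2 with hWd
  have hW0 : 1 ≤ W := by
    rw [hWd]
    have h1 : 0 < a1 := by omega
    have h2 : 0 < b1 := by omega
    have h3 : 0 < a2 := by omega
    have h4 : 0 < b2 := by omega
    have := Nat.mul_pos (Nat.mul_pos (Nat.mul_pos h1 h2) h3) h4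
    omega
  refine ⟨2 * D, D * W, Q * (1 / (κ ^ N1 * κ ^ N2)) , by positivity,
    fun m hm I hI hIs Y hY0 hK => ?_⟩
  -- choice of the scales
  set t := m / (D * W) with ht
  have hDW : 0 < D * W := Nat.mul_pos (by omega) (by omega)
  have ht1 : 1 ≤ t := (Nat.one_le_div_iff hDW).mpr hm
  have htm : (D * W) * t ≤ m := Nat.mul_div_le _ _
  have htm' : m < (D * W) * (t + 1) := by
    rw [ht]; exact Nat.lt_mul_div_succ _ hDW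
  set l1 := a2 * b2 * t with hl1
  set l2 := a1 * b1 * t with hl2
  set r1 := a1 * l1 with hr1
  set r2 := a2 * l2 with hr2
  set ρ := b1 * r1 with hρ
  have hρ2 : ρ = b2 * r2 := by
    rw [hρ, hr1, hr2, hl1, hl2]; ring
  have hρW : ρ = W * t := by
    rw [hρ, hr1, hl1, hWd]; ring
  have hl1p : 1 ≤ l1 := by
    rw [hl1]
    have := Nat.mul_pos (Nat.mul_pos (show 0 < a2 by omega) (show 0 < b2 by omega)) (show 0 < t by omega)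
    omega
  have hl2p : 1 ≤ l2 := by
    rw [hl2]
    have := Nat.mul_pos (Nat.mul_pos (show 0 < a1 by omega) (show 0 < b1 by omega)) (show 0 < t by omega)
    omega
  have hρ1 : 1 ≤ ρ := by
    rw [hρW]
    have := Nat.mul_pos (show 0 < W by omega) (show 0 < t by omega)
    omega
  have hDρ : D * ρ ≤ m := by
    rw [hρW, ← mul_assoc]; exact htm
  have hDρ' : m ≤ 2 * D * ρ := by
    have h1 : (D * W) * (t + 1) ≤ (D * W) * (2 * t) := Nat.mul_le_mul_left _ (by omega)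
    have h2 : 2 * D * ρ = (D * W) * (2 * t) := by rw [hρW]; ring
    omega
  have h50 : 50 * ρ ≤ m := le_trans (Nat.mul_le_mul_right _ hD50) hDρ
  have hm4 : 4 ≤ m := by omega
  have hp0 := pI_nonneg (m / 2) I
  set M : ℝ := (Y / κ ^ N2 + κ ^ N1 * η / (4 * Q) * pI (m / 2) I) / κ ^ N1 +
    η / (4 * Q) * pI (m / 2) I with hM
  have hM0 : 0 ≤ M := by positivity
  have key : ∀ (s : Fin 4) (c c' f0 : ℤ), (f0 = 0 ∨ f0 = -1) → |c| + 20 * ρ ≤ m →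
      |c'| + 20 * ρ ≤ m → (s = 0 → 6 * (ρ:ℤ) ≤ |c - c'|) →
      H12S.PQ (1 / 2) (boxE m)
        (fun F => (Lv m ρ c ↑F ∧ LfS m ρ s c' (f0, f0) ↑F) ∧ I F) ≤ M := by
    intro s c c' f0 hf hc hc' hs
    have hcf := rec_corner hf
    -- first splitting
    have e1 := rec_split (S := boxE m)
      (fun F => (Lv m ρ c ↑F ∧ LfS m ρ s c' (f0, f0) ↑F) ∧ I F)
      (fun F => Gd m ρ r1 (4 * l1) c ↑F)
    have e2 : H12S.PQ (1 / 2) (boxE m)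
        (fun F => ((Lv m ρ c ↑F ∧ LfS m ρ s c' (f0, f0) ↑F) ∧ I F) ∧
        ¬ Gd m ρ r1 (4 * l1) c ↑F) ≤ η / (4 * Q) * pI (m / 2) I := by
      refine le_trans (Pr_mono rec_ok ?_)
        (hA₁' l1 m ρ r1 c f0 (boxE m) hl1p hr1 hρ hc hf (Finset.Subset.refl _) I hI (hIs 2))
      intro F _ h
      exact ⟨⟨A2g_of_L hm4 hcf h.1.1.1 h.1.1.2, h.1.2⟩, h.2⟩
    have e3 : H12S.PQ (1 / 2) (boxE m)
        (fun F => ((Lv m ρ c ↑F ∧ LfS m ρ s c' (f0, f0) ↑F) ∧ I F) ∧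
        Gd m ρ r1 (4 * l1) c ↑F) ≤ H12S.PQ (1 / 2) (boxE m)
          (fun F => ((Lv m ρ c ↑F ∧ Gd m ρ r1 (4 * l1) c ↑F) ∧
        LfS m ρ s c' (f0, f0) ↑F) ∧ I F) := by
      refine Pr_mono rec_ok ?_
      intro F _ h
      exact ⟨⟨⟨h.1.1.1, h.2⟩, h.1.1.2⟩, h.1.2⟩
    have e4 := mid1I (hW (2 * l1)) (m := m) (ρ := ρ) (r := r1) (l := l1) (k := a1 * b1) (c := c)
      (c' := c') (f0 := f0) (s := s) hl1p (by rw [hr1]; exact Nat.mul_le_mul_right _ ha32)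
      (by rw [hρ]; exact Nat.mul_le_mul_right _ hb16)
      (by rw [hρ, hr1]; exact le_of_eq (by ring)) hc hc' hs le_rfl hf hI
    -- second splitting
    have e5 := rec_split (S := boxE m ∪ tubeD m ρ c)
      (fun F => (Tv m ρ c ↑F ∧ LfS m ρ s c' (f0, f0) ↑F) ∧ I F)
      (fun F => GpS m ρ r2 (4 * l2) s c' ↑F)
    have e6 : H12S.PQ (1 / 2) (boxE m ∪ tubeD m ρ c) (fun F => ((Tv m ρ c ↑F ∧
        LfS m ρ s c' (f0, f0) ↑F) ∧ I F) ∧ ¬ GpS m ρ r2 (4 * l2) s c' ↑F) ≤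
        κ ^ N1 * η / (4 * Q) * pI (m / 2) I := by
      refine le_trans (Pr_mono rec_ok ?_)
        (hA₂' l2 m ρ r2 s c' f0 (boxE m ∪ tubeD m ρ c) hl2p hr2 hρ2 hc' hf
          Finset.subset_union_left I hI (hIs 2))
      intro F _ h
      exact ⟨⟨A2g_of_T hm4 hcf h.1.1.1 h.1.1.2, h.1.2⟩, h.2⟩
    have e7 : H12S.PQ (1 / 2) (boxE m ∪ tubeD m ρ c) (fun F => ((Tv m ρ c ↑F ∧
        LfS m ρ s c' (f0, f0) ↑F) ∧ I F) ∧ GpS m ρ r2 (4 * l2) s c' ↑F) ≤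
        H12S.PQ (1 / 2) (boxE m ∪ tubeD m ρ c) (fun F => (Tv m ρ c ↑F ∧
        LfS m ρ s c' (f0, f0) ↑F ∧ GpS m ρ r2 (4 * l2) s c' ↑F) ∧ I F) := by
      refine Pr_mono rec_ok ?_
      intro F _ h
      exact ⟨⟨h.1.1.1, h.1.1.2, h.2⟩, h.1.2⟩
    have e8 := mid2I (hW (2 * l2)) (m := m) (ρ := ρ) (r := r2) (l := l2) (k := a2 * b2) (c := c)
      (c' := c') (f0 := f0) (s := s) hl2p (by rw [hr2]; exact Nat.mul_le_mul_right _ ha32')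
      (by rw [hρ2]; exact Nat.mul_le_mul_right _ hb16')
      (by rw [hρ2, hr2]; exact le_of_eq (by ring)) hc hc' hs le_rfl hf hI hIs
    have hgeo : Geo (2 * D) m ρ c s (cc s c') := by
      refine ⟨hρ1, hDρ', by omega, by omega, ?_, ?_⟩
      · unfold cc
        split_ifs
        · omega
        · rw [abs_neg]; omega
      · intro h0
        unfold cc
        rw [if_pos (Or.inl h0)]
        exact hs h0
    have e9 := hK ρ c s (cc s c') f0 hgeo hf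
    have e10 : H12S.PQ (1 / 2) (boxE m ∪ tubeD m ρ c) (fun F => (Tv m ρ c ↑F ∧
        LfS m ρ s c' (f0, f0) ↑F ∧ GpS m ρ r2 (4 * l2) s c' ↑F) ∧ I F) ≤ Y / κ ^ N2 := by
      rw [le_div_iff₀ hκN2]
      exact e8.trans e9
    have e11 : H12S.PQ (1 / 2) (boxE m ∪ tubeD m ρ c)
        (fun F => (Tv m ρ c ↑F ∧ LfS m ρ s c' (f0, f0) ↑F) ∧ I F) ≤
        Y / κ ^ N2 + κ ^ N1 * η / (4 * Q) * pI (m / 2) I := by
      linarith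
    have e12 : H12S.PQ (1 / 2) (boxE m)
          (fun F => ((Lv m ρ c ↑F ∧ Gd m ρ r1 (4 * l1) c ↑F) ∧
        LfS m ρ s c' (f0, f0) ↑F) ∧ I F) ≤
        (Y / κ ^ N2 + κ ^ N1 * η / (4 * Q) * pI (m / 2) I) / κ ^ N1 := by
      rw [le_div_iff₀ hκN1]
      exact e4.trans e11
    rw [hM]
    linarith
  have hfin := hD D le_rfl m ρ hρ1 hDρ hDρ' I hI hIs M hM0 key
  rw [← hQ] at hfin
  have hQM : Q * M = Q * (1 / (κ ^ N1 * κ ^ N2)) * Y + η / 2 * pI (m / 2) I := by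
    rw [hM]
    field_simp
    ring
  rw [hQM] at hfin
  nlinarith [mul_nonneg hη.le hp0]

end H492S
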