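import Pool.Agent.H985R3.TA.SI
import Pool.Agent.H985R3.TA.SII

/-!
# Separation of two arms with an inner event: the separation steps

The inner event `I` depends on the edges of the box of radius `m / 8`.  The steps of
`Pool.Agent.H985R3.TA` are repeated with the inner box added to the stopping set.
-/

set_option autoImplicit false

namespace H492S

open H974 Finset H985T

/-- the abstract separation step, with an inner event -/
theorem step_probI {p : Edg → ℝ} (hp : Ok p) {S D X Oo Q : Finset Edg}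
    (hSD : Disjoint S D) (hX : Disjoint X (S ∪ D ∪ Oo)) (hOo : Disjoint Oo (S ∪ D))
    {Z : Edg → ZMod 2} {x y f g : Vtx} {l : ℤ}
    (hZ : ∀ v, vb Z v = b2 (x = v) + b2 (y = v)) (hx : corner x f) (hy : corner y g)
    (hout : ∀ e, e ∉ S ∪ D ∪ Oo → ∀ e', e' ∉ S ∪ D ∪ Oo →
      DReach {e : Edg | e ∉ S ∪ D ∪ Oo} (dtgt e) (dtgt e'))
    (hg : ∃ e, e ∉ S ∪ D ∪ Oo ∧ (dsrc e = g ∨ dtgt e = g))
    {Ws : Set Vtx} (hWs : ∀ w ∈ Ws, ∃ e, e ∉ S ∪ D ∪ Oo ∧ (dsrc e = w ∨ dtgt e = w))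
    (hQ : ∀ a ∈ VD (↑D : Set Edg), ∀ b ∈ ball a l, ∀ e ∈ Q, dsrc e ≠ b ∧ dtgt e ≠ b)
    {I : Finset Edg → Prop} (hI : ∀ F, I F ↔ I (F ∩ Q)) :
    Pr p (S ∪ D ∪ X) (fun F =>
        (PotHyp (↑(S ∪ D ∪ Oo) : Set Edg) ↑D (↑F ∪ ↑Oo) Z l ∧
          ∃ w ∈ Ws, DReach (↑(S ∪ X) \ ↑F : Set Edg) f w) ∧ I F) *
      Pr p (S ∪ D ∪ X) (fun F => ∀ a ∈ VD (↑D : Set Edg), ∀ b,
        DReach (↑((S ∪ D ∪ X) \ F) : Set Edg) a b → b ∈ ball a l) ≤
    Pr p (S ∪ D ∪ X) (fun F => (Reach (((↑(S ∪ D) : Set Edg) ∩ ↑F) ∪ ↑Oo) x y ∧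
      ∃ w ∈ Ws, DReach (↑(S ∪ X) \ ↑F : Set Edg) f w) ∧ I F) := by
  classical
  -- agreement on the larger stopping set
  have hag : ∀ {F F' : Finset Edg},
      F ∩ (PST_K S D Oo X F ∪ Q) = F' ∩ (PST_K S D Oo X F ∪ Q) →
      F ∩ PST_K S D Oo X F = F' ∩ PST_K S D Oo X F := by
    intro F F' h
    ext e
    have h1 := Finset.ext_iff.mp h e
    simp only [Finset.mem_inter, Finset.mem_union] at h1 ⊢
    constructor
    · rintro ⟨h2, h3⟩
      exact ⟨(h1.mp ⟨h2, Or.inl h3⟩).1, h3⟩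
    · rintro ⟨h2, h3⟩
      exact ⟨(h1.mpr ⟨h2, Or.inl h3⟩).1, h3⟩
  have hagQ : ∀ {F F' : Finset Edg},
      F ∩ (PST_K S D Oo X F ∪ Q) = F' ∩ (PST_K S D Oo X F ∪ Q) → F ∩ Q = F' ∩ Q := by
    intro F F' h
    ext e
    have h1 := Finset.ext_iff.mp h e
    simp only [Finset.mem_inter, Finset.mem_union] at h1 ⊢
    constructor
    · rintro ⟨h2, h3⟩
      exact ⟨(h1.mp ⟨h2, Or.inr h3⟩).1, h3⟩
    · rintro ⟨h2, h3⟩
      exact ⟨(h1.mpr ⟨h2, Or.inr h3⟩).1, h3⟩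
  have hstop : H12S.Stop (S ∪ D ∪ X) (fun F => PST_K S D Oo X F ∪ Q) := by
    intro F F' h1 h2 h
    have h3 := PST_stop (X := X) (U := S ∪ D ∪ X) hSD hOo F F' h1 h2 (hag h)
    show PST_K S D Oo X F' ∪ Q = PST_K S D Oo X F ∪ Q
    rw [h3]
  refine (markov_inc hp hstop ?_ ?_).trans (Pr_mono hp ?_)
  · -- the event is explored
    rintro F F' _ _ h0 ⟨⟨hP, w, hw, hr⟩, hIF⟩
    have h := hag h0
    refine ⟨⟨PST_pot hSD hOo h hP, w, hw, ?_⟩, ?_⟩
    · have hwY : w ∈ PST_Y S D Oo F := PST_Y_out' (hWs w hw)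
      have h1 := (PST_path hSD hX hOo hwY hr.symm).2
      refine (h1.mono ?_).symm
      rintro e ⟨he1, he2, he3⟩
      exact ⟨he2, fun h' => he3 ((PST_agree h (Finset.mem_coe.mp he1)).mpr h')⟩
    · rw [hI, ← hagQ h0, ← hI]
      exact hIF
  · -- monotonicity
    intro F G hFG h a ha b hr
    refine h a ha b (hr.mono ?_)
    exact Finset.coe_subset.mpr (Finset.sdiff_subset_sdiff le_rfl hFG)
  · rintro F hF ⟨⟨⟨hP, w, hw, hr⟩, hIF⟩, hB⟩
    refine ⟨⟨?_, w, hw, hr⟩, hIF⟩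
    have hwY : w ∈ PST_Y S D Oo F := PST_Y_out' (hWs w hw)
    have hfY : f ∈ PST_Y S D Oo F := (PST_path hSD hX hOo hwY hr.symm).1
    have hgY : g ∈ PST_Y S D Oo F := PST_Y_out' hg
    have hGset : (((↑(S ∪ D) : Set Edg) ∩ ↑F) ∪ ↑Oo) = (↑(((S ∪ D) ∩ F) ∪ Oo) : Set Edg) := by
      push_cast; rfl
    rw [hGset]
    have hsub : H0s (↑(S ∪ D ∪ Oo) : Set Edg) ↑D (↑F ∪ ↑Oo) ⊆
        {e : Edg | e ∉ ((S ∪ D) ∩ F) ∪ Oo} := by
      intro e he h1
      apply he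
      rw [Finset.mem_union, Finset.mem_inter] at h1
      rcases h1 with ⟨h1, h2⟩ | h1
      · exact ⟨Finset.mem_coe.mpr (Finset.mem_union_left _ h1), Or.inr (Or.inl h2)⟩
      · exact ⟨Finset.mem_coe.mpr (Finset.mem_union_right _ h1), Or.inr (Or.inr h1)⟩
    refine conv_star hZ hx hy ?_ ?_
    · obtain ⟨e, he, hr1⟩ := hfY
      obtain ⟨e', he', hr2⟩ := hgY
      have h3 : DReach {e : Edg | e ∉ ((S ∪ D) ∩ F) ∪ Oo} (dtgt e) (dtgt e') := by
        refine (hout e (fun h => he (Finset.mem_coe.mpr h)) e'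
          (fun h => he' (Finset.mem_coe.mpr h))).mono ?_
        intro e1 he1 h4
        apply he1
        rw [Finset.mem_union, Finset.mem_inter] at h4
        rw [Finset.mem_union]
        exact h4.imp (fun h => h.1) id
      have h5 : DReach (H0s (↑(S ∪ D ∪ Oo) : Set Edg) ↑D (↑F ∪ ↑Oo)) (dtgt e) f := hr1
      have h6 : DReach (H0s (↑(S ∪ D ∪ Oo) : Set Edg) ↑D (↑F ∪ ↑Oo)) (dtgt e') g := hr2
      exact ((h5.mono hsub).symm.trans h3).trans (h6.mono hsub)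
    · intro k hk
      refine yonly hP ?_ hfY (hk.mono ?_)
      · intro a ha b hr1
        -- the path avoids the inner box
        have key : DReach (↑((S ∪ D ∪ X) \ (F ∪ (PST_K S D Oo X F ∪ Q))) : Set Edg) a b := by
          induction hr1 with
          | refl => exact DReach.refl _ _
          | @tail b c _ hs ih =>
            have hbb := hB a ha b ih
            obtain ⟨e, ⟨he1, he2, he3⟩, hc⟩ := hs
            refine ih.trans (DAdj.reach ⟨e, ?_, hc⟩)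
            have heQ : e ∉ Q := by
              intro h
              have h1 := hQ a ha b hbb e h
              rcases hc with ⟨h2, _⟩ | ⟨_, h2⟩
              · exact h1.1 h2
              · exact h1.2 h2
            have he1' : e ∈ S ∪ D ∪ Oo := Finset.mem_coe.mp he1
            have hnF : e ∉ F := fun h => he2 (Or.inl h)
            have hnO : e ∉ Oo := fun h => he2 (Or.inr h)
            have hSD' : e ∈ S ∪ D := by
              rw [Finset.mem_union] at he1'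
              exact he1'.resolve_right hnO
            rw [Finset.mem_coe, Finset.mem_sdiff]
            refine ⟨Finset.mem_union_left _ hSD', ?_⟩
            intro h
            rw [Finset.mem_union, Finset.mem_union] at h
            rcases h with h | h | h
            · exact hnF h
            · rw [PST_mem_K] at h
              rcases h with ⟨h4, h5⟩ | h
              · rcases he3 with h6 | ⟨h6, h7⟩
                · exact Finset.disjoint_left.mp hSD h4 h6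
                · exact h5.elim h6 h7
              · exact Finset.disjoint_left.mp hX h he1'
            · exact heQ h
        exact hB a ha b key
      · intro e he h1
        apply he
        obtain ⟨h2, h3⟩ := h1
        have h2' : e ∈ S ∪ D ∪ Oo := Finset.mem_coe.mp h2
        rw [Finset.mem_union] at h2'
        rw [Finset.mem_union, Finset.mem_inter]
        rcases h3 with h3 | h3
        · exact h2'.imp (fun h => ⟨h, h3⟩) id
        · exact Or.inr h3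

/-- the faces near the tube are far from the inner box -/
theorem far_tube {m ρ l : ℕ} {c : ℤ} (hl : 1 ≤ l) (h : 40 * l ≤ m) {a : Vtx}
    (ha : a ∈ VD (↑(tubeD m ρ c) : Set Edg)) {b : Vtx} (hb : b ∈ ball a ((4 * l : ℕ) : ℤ))
    {e : Edg} (he : e ∈ boxE (m / 8)) : dsrc e ≠ b ∧ dtgt e ≠ b := by
  obtain ⟨e', he', hea⟩ := ha
  have h1 : e' ∈ RE (m:ℤ) ((m:ℤ) + (10 * ρ : ℕ)) (c - ρ) (c + ρ) := by
    have h1 : e' ∈ tubeD m ρ c := by exact_mod_cast he'
    unfold tubeD at h1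
    have h2 := (Finset.mem_sdiff.mp h1).1
    unfold tube at h2
    rw [if_pos rfl] at h2
    exact h2
  have ha1 : (m:ℤ) - 1 ≤ a.1 := by
    obtain ⟨x, y, _ | _⟩ := e'
    · rw [mem_RE_false] at h1
      rcases hea with h | h
      · rw [← h]; simp only [dsrc_false]; omega
      · rw [← h]; simp only [dtgt_mk]; omega
    · rw [mem_RE_true] at h1
      rcases hea with h | h
      · rw [← h]; simp only [dsrc_true]; omega
      · rw [← h]; simp only [dtgt_mk]; omega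
  have hb1 := abs_le.mp hb.1
  push_cast at hb1
  unfold boxE at he
  obtain ⟨x, y, _ | _⟩ := e
  · rw [mem_RE_false] at he
    constructor
    · rintro rfl
      simp only [dsrc_false] at hb1
      omega
    · rintro rfl
      simp only [dtgt_mk] at hb1
      omega
  · rw [mem_RE_true] at he
    constructor
    · rintro rfl
      simp only [dsrc_true] at hb1
      omega
    · rintro rfl
      simp only [dtgt_mk] at hb1
      omega

/-- the first separation step, with an inner event -/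
theorem step1I {κ : ℝ} {n : ℕ} (hW : H12S.Win (1 / 2) κ n) {m ρ r l k : ℕ} {c : ℤ} (hl : 1 ≤ l)
    (hr : 32 * l ≤ r) (hρ : 16 * r ≤ ρ) (hk : ρ ≤ k * l) (hc : |c| + 4 * ρ ≤ m) (hn : 2 * l ≤ n)
    {f : Vtx} (hf : corner (0, 0) f) {X : Finset Edg} (hX : Disjoint X (RO m ρ c))
    {Ws : Set Vtx} (hWs : ∀ w ∈ Ws, ∃ e, e ∉ RO m ρ c ∧ (dsrc e = w ∨ dtgt e = w))
    {I : Finset Edg → Prop} (hI : ∀ F, I F ↔ I (F ∩ boxE (m / 8))) :
    H12S.PQ (1 / 2) (boxE m ∪ tubeD m ρ c ∪ X) (fun F =>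
        ((Lv m ρ c ↑F ∧ Gd m ρ r (4 * l) c ↑F) ∧
        ∃ w ∈ Ws, DReach (↑(boxE m ∪ X) \ ↑F : Set Edg) f w) ∧ I F) *
          κ ^ (4 * (2 * (6 * k) + 1) ^ 2) ≤
    H12S.PQ (1 / 2) (boxE m ∪ tubeD m ρ c ∪ X) (fun F => (Tv m ρ c ↑F ∧
        ∃ w ∈ Ws, DReach (↑(boxE m ∪ X) \ ↑F : Set Edg) f w) ∧ I F) := by
  have hp : Ok (fun _ : Edg => (1 / 2 : ℝ)) := okq (by norm_num) (by norm_num)
  have hρ1 : 1 ≤ ρ := by omega
  have hcabs := abs_nonneg c
  have hm : 4 * (ρ:ℤ) ≤ m := by omega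
  -- the chain
  obtain ⟨Z, _, hZ⟩ := chain_of_reach ((si_row ((m:ℤ) + 14 * ρ)).trans (si_col ((m:ℤ) + 14 * ρ) c))
  -- disjointness
  have hSD : Disjoint (boxE m) (tubeD m ρ c) := by
    unfold tubeD; exact Finset.disjoint_sdiff
  have hOo : Disjoint (endE m ρ c) (boxE m ∪ tubeD m ρ c) := SII_disj2 hρ1
  have hg : ∃ e, e ∉ boxE m ∪ tubeD m ρ c ∪ endE m ρ c ∧
      (dsrc e = (((m:ℤ) + 14 * ρ, c) : Vtx) ∨ dtgt e = (((m:ℤ) + 14 * ρ, c) : Vtx)) := by
    refine ⟨((m:ℤ) + 14 * ρ, c, true), ?_, Or.inr rfl⟩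
    intro h
    have h' : (((m:ℤ) + 14 * ρ, c, true) : Edg) ∈ RO m ρ c := h
    rw [mem_RO] at h'
    unfold boxE at h'
    rw [mem_RE_true, mem_RE_true] at h'
    omega
  have hgy : corner (((m:ℤ) + 14 * ρ, c) : Vtx) (((m:ℤ) + 14 * ρ, c) : Vtx) :=
    ⟨Or.inl rfl, Or.inl rfl⟩
  have hmain := step_probI hp hSD hX hOo (Z := Z) (x := ((0, 0) : Vtx))
    (y := (((m:ℤ) + 14 * ρ, c) : Vtx)) (f := f) (g := (((m:ℤ) + 14 * ρ, c) : Vtx))
    (l := ((4 * l : ℕ) : ℤ)) hZ hf hgy (fun e he e' he' => out_face hρ1 hc e e' he he') hg hWs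
    (Q := boxE (m / 8)) (fun a ha b hb e he => far_tube hl (by omega) ha hb he) hI
  -- first factor
  have h1 : H12S.PQ (1 / 2) (boxE m ∪ tubeD m ρ c ∪ X) (fun F => ((Lv m ρ c ↑F ∧
        Gd m ρ r (4 * l) c ↑F) ∧ ∃ w ∈ Ws, DReach (↑(boxE m ∪ X) \ ↑F : Set Edg) f w) ∧ I F) ≤
      Pr (fun _ => (1 / 2 : ℝ)) (boxE m ∪ tubeD m ρ c ∪ X) (fun F =>
        (PotHyp (↑(boxE m ∪ tubeD m ρ c ∪ endE m ρ c) : Set Edg) ↑(tubeD m ρ c)
          (↑F ∪ ↑(endE m ρ c)) Z ((4 * l : ℕ) : ℤ) ∧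
          ∃ w ∈ Ws, DReach (↑(boxE m ∪ X) \ ↑F : Set Edg) f w) ∧ I F) := by
    apply Pr_mono hp
    rintro F _ ⟨⟨⟨hv, hG⟩, hw⟩, hIF⟩
    exact ⟨⟨near_right (l := 4 * l) (by omega) (by omega) hρ hc hv hG hZ, hw⟩, hIF⟩
  -- second factor
  have h2 : κ ^ (4 * (2 * (6 * k) + 1) ^ 2) ≤
      Pr (fun _ => (1 / 2 : ℝ)) (boxE m ∪ tubeD m ρ c ∪ X) (fun F =>
        ∀ a ∈ VD (↑(tubeD m ρ c) : Set Edg), ∀ b,
          DReach (↑((boxE m ∪ tubeD m ρ c ∪ X) \ F) : Set Edg) a b → b ∈ ball a ((4 * l : ℕ) : ℤ)) := by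
    refine (H12S.trap_prob hW (N := 6 * k) hl hn ((m:ℤ) + 5 * ρ) c
      (boxE m ∪ tubeD m ρ c ∪ X)).2.trans (Pr_mono hp ?_)
    intro F _ hF a ha b hab
    have hN : 6 * ρ ≤ 6 * k * l := by
      calc 6 * ρ ≤ 6 * (k * l) := Nat.mul_le_mul_left _ hk
        _ = 6 * k * l := by ring
    have hin := si_VD (N := 6 * k * l) hρ1 hN ha
    push_cast at hin
    have := hF a b (by push_cast; exact hin) hab
    unfold ball
    refine ⟨?_, ?_⟩
    · rw [abs_sub_comm]; push_cast; exact this.1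
    · rw [abs_sub_comm]; push_cast; exact this.2
  -- conclusion
  have hnn := Pr_nonneg hp (boxE m ∪ tubeD m ρ c ∪ X) (fun F => ((Lv m ρ c ↑F ∧
        Gd m ρ r (4 * l) c ↑F) ∧ ∃ w ∈ Ws, DReach (↑(boxE m ∪ X) \ ↑F : Set Edg) f w) ∧ I F)
  have hκ : 0 ≤ κ ^ (4 * (2 * (6 * k) + 1) ^ 2) := pow_nonneg hW.kpos.le _
  refine (mul_le_mul h1 h2 hκ (hnn.trans h1)).trans (hmain.trans (Pr_mono hp ?_))
  rintro F _ ⟨⟨hR, hw⟩, hIF⟩
  exact ⟨⟨pass_v hρ1 hR, hw⟩, hIF⟩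

end H492S
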