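import Pool.Agent.Y492.SEP.Step

/-!
# Separation of two arms with an inner event: the step for the dual arm
-/

set_option autoImplicit false

namespace H492S

open H974 Finset H985T

/-- the faces near the tube are far from the inner box, in dual coordinates -/
theorem far_tube_dual {m ρ l : ℕ} {c : ℤ} (hl : 1 ≤ l) (h : 40 * l ≤ m) {a : Vtx}
    (ha : a ∈ VD (↑(dmp (tubeD m ρ c)) : Set Edg)) {b : Vtx} (hb : b ∈ ball a ((4 * l : ℕ) : ℤ))
    {e : Edg} (he : e ∈ dmp (boxE (m / 8))) : dsrc e ≠ b ∧ dtgt e ≠ b := by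
  obtain ⟨e', he', hea⟩ := ha
  rw [Finset.mem_coe, mem_dmp] at he'
  rw [mem_dmp] at he
  have hed : e' = dl (dl.symm e') := (Equiv.apply_symm_apply _ _).symm
  have hed2 : e = dl (dl.symm e) := (Equiv.apply_symm_apply _ _).symm
  set g' := dl.symm e'
  set g := dl.symm e
  rw [hed, SII_dsrc_dl, SII_dtgt_dl] at hea
  rw [hed2, SII_dsrc_dl, SII_dtgt_dl]
  unfold tubeD tube at he'
  rw [Finset.mem_sdiff] at he'
  have he1 := he'.1
  simp only [if_true] at he1
  have ha1 : (m:ℤ) - 1 ≤ a.1 := by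
    obtain ⟨x, y, _ | _⟩ := g'
    · rw [mem_RE_false] at he1
      simp only [src_mk, tgt_false] at hea
      rcases hea with h | h
      · rw [← h]; simp only; omega
      · rw [← h]; simp only; omega
    · rw [mem_RE_true] at he1
      simp only [src_mk, tgt_true] at hea
      rcases hea with h | h
      · rw [← h]; simp only; omega
      · rw [← h]; simp only; omega
  have hb1 := abs_le.mp hb.1
  push_cast at hb1
  unfold boxE at he
  obtain ⟨x, y, _ | _⟩ := g
  · rw [mem_RE_false] at he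
    simp only [src_mk, tgt_false]
    constructor
    · rintro rfl
      simp only at hb1
      omega
    · rintro rfl
      simp only at hb1
      omega
  · rw [mem_RE_true] at he
    simp only [src_mk, tgt_true]
    constructor
    · rintro rfl
      simp only at hb1
      omega
    · rintro rfl
      simp only at hb1
      omega

/-- the separation step in dual coordinates, with an inner event -/
theorem step2I {κ : ℝ} {n : ℕ} (hW : H12S.Win (1 / 2) κ n) {m ρ r l k : ℕ} {c : ℤ} (hl : 1 ≤ l)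
    (hr : 32 * l ≤ r) (hρ : 16 * r ≤ ρ) (hk : ρ ≤ k * l) (hc : |c| + 4 * ρ ≤ m) (hn : 2 * l ≤ n)
    {f : Vtx} (hf : corner (0, 0) f) {X : Finset Edg} (hX : Disjoint X (SII_RO m ρ c))
    {Zs : Set Vtx} (hZs : ∀ z ∈ Zs, ∃ e, e ∉ SII_RO m ρ c ∧ (src e = z ∨ tgt e = z))
    {I : Finset Edg → Prop} (hI : ∀ F, I F ↔ I (F ∩ boxE (m / 8))) :
    H12S.PQ (1 / 2) (boxE m ∪ tubeD m ρ c ∪ X) (fun F =>
        ((Lf m ρ c f ↑F ∧ Gp m ρ r (4 * l) c ↑F) ∧
        ∃ z ∈ Zs, Reach (↑F ∩ ↑(boxE m ∪ X) : Set Edg) (0, 0) z) ∧ I F) *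
          κ ^ (4 * (2 * (6 * k) + 1) ^ 2) ≤
    H12S.PQ (1 / 2) (boxE m ∪ tubeD m ρ c ∪ X) (fun F => (Tf m ρ c f ↑F ∧
        ∃ z ∈ Zs, Reach (↑F ∩ ↑(boxE m ∪ X) : Set Edg) (0, 0) z) ∧ I F) := by
  classical
  have hρ1 : 1 ≤ ρ := by omega
  have hOk : Ok (fun _ : Edg => (1 / 2 : ℝ)) := okq (by norm_num) (by norm_num)
  set U := boxE m ∪ tubeD m ρ c ∪ X with hU
  have hUd : dmp (boxE m) ∪ dmp (tubeD m ρ c) ∪ dmp X = dmp U := by
    rw [hU, SII_dmp_union, SII_dmp_union]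
  have hOd : dmp (boxE m) ∪ dmp (tubeD m ρ c) ∪ dmp (endE m ρ c) = dmp (SII_RO m ρ c) := by
    unfold SII_RO
    rw [SII_dmp_union, SII_dmp_union]
  -- a chain
  obtain ⟨Z, -, hZ⟩ := chain_of_reach (SII_univ f ((m:ℤ) + 14 * ρ, c))
  -- the target sets
  set Ws : Set Vtx := SII_sh '' Zs with hWs
  -- the inner event in dual coordinates
  set J : Finset Edg → Prop := fun G => I (U.filter (fun e => dl e ∉ G)) with hJd
  have hJ : ∀ G, J G ↔ J (G ∩ dmp (boxE (m / 8))) := by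
    intro G
    simp only [hJd]
    rw [hI, hI (U.filter (fun e => dl e ∉ G ∩ dmp (boxE (m / 8))))]
    have e1 : U.filter (fun e => dl e ∉ G) ∩ boxE (m / 8) =
        U.filter (fun e => dl e ∉ G ∩ dmp (boxE (m / 8))) ∩ boxE (m / 8) := by
      ext e
      simp only [Finset.mem_inter, Finset.mem_filter, SII_dl_mem]
      tauto
    rw [e1]
  have hJF : ∀ F, F ⊆ U → (J (dmp (U \ F)) ↔ I F) := by
    intro F hF
    simp only [hJd]
    have e1 : U.filter (fun e => dl e ∉ dmp (U \ F)) = F := by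
      ext e
      simp only [Finset.mem_filter, SII_dl_mem, Finset.mem_sdiff]
      constructor
      · rintro ⟨h1, h2⟩
        by_contra h3
        exact h2 ⟨h1, h3⟩
      · intro h
        exact ⟨hF h, fun h2 => h2.2 h⟩
    rw [e1]
  have hstep := step_probI hOk (S := dmp (boxE m)) (D := dmp (tubeD m ρ c)) (X := dmp X)
    (Oo := dmp (endE m ρ c)) (SII_dmp_disj (SII_disj1 m ρ c))
    (by rw [hOd]; exact SII_dmp_disj hX)
    (by rw [← SII_dmp_union]; exact SII_dmp_disj (SII_disj2 hρ1))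
    (Z := Z) (x := f) (y := ((m:ℤ) + 14 * ρ, c)) (f := (-1, -1)) (g := ((m:ℤ) + 14 * ρ, c - 1))
    (l := ((4 * l : ℕ) : ℤ)) hZ
    (by
      unfold corner at hf ⊢
      simp only at hf ⊢
      omega)
    ⟨Or.inl rfl, Or.inr rfl⟩
    (by
      rw [hOd]
      intro e he e' he'
      have h1 : dl.symm e ∉ SII_RO m ρ c := by rwa [mem_dmp] at he
      have h2 : dl.symm e' ∉ SII_RO m ρ c := by rwa [mem_dmp] at he'
      have h3 := out_vtx hρ1 hc _ _ h1 h2
      have h4 := SII_dreach.mpr h3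
      have h5 : SII_sh (tgt (dl.symm e)) = dtgt e := by
        have := SII_dtgt_dl (dl.symm e)
        rw [Equiv.apply_symm_apply] at this
        exact this.symm
      have h6 : SII_sh (tgt (dl.symm e')) = dtgt e' := by
        have := SII_dtgt_dl (dl.symm e')
        rw [Equiv.apply_symm_apply] at this
        exact this.symm
      rw [h5, h6] at h4
      refine h4.mono ?_
      rintro _ ⟨e'', he'', rfl⟩
      show dl e'' ∉ dmp (SII_RO m ρ c)
      rw [SII_dl_mem]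
      exact he'')
    (by
      rw [hOd]
      refine ⟨dl ((m:ℤ) + 14 * ρ + 1, c, true), ?_, Or.inl ?_⟩
      · rw [SII_dl_mem]
        unfold SII_RO tubeD endE tube boxE
        simp only [Finset.mem_union, Finset.mem_sdiff, if_true, mem_RE_true]
        omega
      · rw [SII_dsrc_dl]
        simp)
    (Ws := Ws)
    (by
      rw [hOd]
      rintro _ ⟨z, hz, rfl⟩
      obtain ⟨e, he, hez⟩ := hZs z hz
      refine ⟨dl e, by rwa [SII_dl_mem], ?_⟩
      rw [SII_dsrc_dl, SII_dtgt_dl]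
      rcases hez with h | h
      · left; rw [h]; rfl
      · right; rw [h]; rfl)
    (Q := dmp (boxE (m / 8)))
    (fun a ha b hb e he => far_tube_dual hl (by have := abs_nonneg c; omega) ha hb he) hJ
  rw [hUd, hOd] at hstep
  -- translation of the event of the second arm
  have harm : ∀ F, F ⊆ U → ((∃ w ∈ Ws, DReach (↑(dmp (boxE m) ∪ dmp X) \ ↑(dmp (U \ F)) : Set Edg) (-1, -1) w) ↔
      ∃ z ∈ Zs, Reach (↑F ∩ ↑(boxE m ∪ X) : Set Edg) (0, 0) z) := by
    intro F hF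
    have hset : (↑(dmp (boxE m) ∪ dmp X) \ ↑(dmp (U \ F)) : Set Edg) = 
        dl '' (↑F ∩ ↑(boxE m ∪ X) : Set Edg) := by
      ext e
      simp only [Set.mem_sdiff, Finset.mem_coe, Set.mem_image, Set.mem_inter_iff]
      constructor
      · rintro ⟨h1, h2⟩
        rw [← SII_dmp_union, mem_dmp] at h1
        rw [mem_dmp, Finset.mem_sdiff] at h2
        push Not at h2
        refine ⟨dl.symm e, ⟨h2 ?_, h1⟩, Equiv.apply_symm_apply _ _⟩
        rw [hU]
        rw [Finset.mem_union] at h1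
        rw [Finset.mem_union, Finset.mem_union]
        rcases h1 with h | h
        · exact Or.inl (Or.inl h)
        · exact Or.inr h
      · rintro ⟨e', ⟨h1, h2⟩, rfl⟩
        rw [← SII_dmp_union, SII_dl_mem, SII_dl_mem]
        refine ⟨h2, ?_⟩
        rw [Finset.mem_sdiff]
        exact fun h => h.2 h1
    have h11 : ((-1, -1) : Vtx) = SII_sh (0, 0) := by simp [SII_sh]
    rw [hset, h11]
    constructor
    · rintro ⟨_, ⟨z, hz, rfl⟩, h⟩
      exact ⟨z, hz, SII_dreach.mp h⟩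
    · rintro ⟨z, hz, h⟩
      exact ⟨_, ⟨z, hz, rfl⟩, SII_dreach.mpr h⟩
  -- the trap event
  have htrap : κ ^ (4 * (2 * (6 * k) + 1) ^ 2) ≤ Pr (fun _ => (1/2 : ℝ)) (dmp U)
      (fun F => ∀ a ∈ VD (↑(dmp (tubeD m ρ c)) : Set Edg), ∀ b,
        DReach (↑(dmp U \ F) : Set Edg) a b → b ∈ ball a ((4 * l : ℕ) : ℤ)) := by
    refine ((H12S.trap_prob hW hl hn ((m:ℤ) + 5 * ρ) c (N := 6 * k) (dmp U)).2).trans ?_
    apply Pr_mono hOk
    intro F hF h a ha b hab
    have hin : H974.inR ((m:ℤ) + 5 * ρ - (6 * k : ℕ) * l) ((m:ℤ) + 5 * ρ + (6 * k : ℕ) * l)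
        (c - (6 * k : ℕ) * l) (c + (6 * k : ℕ) * l) a := by
      have hkl : ((ρ : ℕ) : ℤ) ≤ (k : ℤ) * l := by exact_mod_cast hk
      have h6 : ((6 * k : ℕ) : ℤ) * l = 6 * ((k : ℤ) * l) := by push_cast; ring
      rw [h6]
      obtain ⟨e, he, hea⟩ := ha
      rw [Finset.mem_coe, mem_dmp] at he
      have hed : e = dl (dl.symm e) := (Equiv.apply_symm_apply _ _).symm
      set e' := dl.symm e
      unfold tubeD tube at he
      rw [Finset.mem_sdiff] at he
      have he1 := he.1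
      simp only [if_true] at he1
      obtain ⟨x, y, bo⟩ := e'
      rw [hed] at hea
      rw [SII_dsrc_dl, SII_dtgt_dl] at hea
      set t := (k : ℤ) * l with ht
      cases bo
      · rw [mem_RE_false] at he1
        simp only [src_mk, tgt_false] at hea
        rcases hea with h | h
        · rw [← h]; refine ⟨⟨?_, ?_⟩, ?_, ?_⟩ <;> simp only <;> push_cast at he1 <;> omega
        · rw [← h]; refine ⟨⟨?_, ?_⟩, ?_, ?_⟩ <;> simp only <;> push_cast at he1 <;> omega
      · rw [mem_RE_true] at he1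
        simp only [src_mk, tgt_true] at hea
        rcases hea with h | h
        · rw [← h]; refine ⟨⟨?_, ?_⟩, ?_, ?_⟩ <;> simp only <;> push_cast at he1 <;> omega
        · rw [← h]; refine ⟨⟨?_, ?_⟩, ?_, ?_⟩ <;> simp only <;> push_cast at he1 <;> omega
    obtain ⟨h1, h2⟩ := h a b hin hab
    refine ⟨?_, ?_⟩
    · rw [abs_sub_comm]; push_cast; exact h1
    · rw [abs_sub_comm]; push_cast; exact h2
  -- lower bound of the first factor
  have hA : H12S.PQ (1 / 2) U (fun F => ((Lf m ρ c f ↑F ∧ Gp m ρ r (4 * l) c ↑F) ∧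
        ∃ z ∈ Zs, Reach (↑F ∩ ↑(boxE m ∪ X) : Set Edg) (0, 0) z) ∧ I F) ≤
      Pr (fun _ => (1/2 : ℝ)) (dmp U) (fun F =>
          (PotHyp (↑(dmp (SII_RO m ρ c)) : Set Edg) ↑(dmp (tubeD m ρ c))
            (↑F ∪ ↑(dmp (endE m ρ c))) Z ((4 * l : ℕ) : ℤ) ∧
            ∃ w ∈ Ws, DReach (↑(dmp (boxE m) ∪ dmp X) \ ↑F : Set Edg) (-1, -1) w) ∧ J F) := by
    rw [← SII_dual]
    apply Pr_mono hOk
    rintro F hF ⟨⟨⟨h1, h2⟩, h3⟩, h4⟩
    refine ⟨⟨?_, (harm F hF).mpr h3⟩, (hJF F hF).mpr h4⟩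
    refine near_dual (by omega) (by omega) hρ hc hf h1 h2 ?_ hZ
    intro e he
    rw [Finset.mem_coe, SII_dl_mem, Finset.mem_sdiff]
    constructor
    · intro h; exact h.2
    · intro h
      refine ⟨?_, h⟩
      rw [hU, Finset.mem_union, Finset.mem_union]
      exact Or.inl (Or.inl he)
  -- upper bound of the right side
  have hB : Pr (fun _ => (1/2 : ℝ)) (dmp U) (fun F =>
      (Reach (((↑(dmp (boxE m) ∪ dmp (tubeD m ρ c)) : Set Edg) ∩ ↑F) ∪ ↑(dmp (endE m ρ c))) f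
        ((m:ℤ) + 14 * ρ, c) ∧
        ∃ w ∈ Ws, DReach (↑(dmp (boxE m) ∪ dmp X) \ ↑F : Set Edg) (-1, -1) w) ∧ J F) ≤
      H12S.PQ (1 / 2) U (fun F => (Tf m ρ c f ↑F ∧
        ∃ z ∈ Zs, Reach (↑F ∩ ↑(boxE m ∪ X) : Set Edg) (0, 0) z) ∧ I F) := by
    rw [← SII_dual]
    apply Pr_mono hOk
    rintro F hF ⟨⟨h1, h2⟩, h4⟩
    refine ⟨⟨?_, (harm F hF).mp h2⟩, (hJF F hF).mp h4⟩
    apply pass_f hρ1 hf
    rw [← reach_dl]
    refine h1.mono ?_
    rintro e (⟨he1, he2⟩ | he)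
    · rw [Finset.mem_coe, ← SII_dmp_union, mem_dmp] at he1
      rw [Finset.mem_coe, mem_dmp, Finset.mem_sdiff] at he2
      refine ⟨dl.symm e, Or.inl ⟨he1, he2.2⟩, Equiv.apply_symm_apply _ _⟩
    · rw [Finset.mem_coe, mem_dmp] at he
      exact ⟨dl.symm e, Or.inr he, Equiv.apply_symm_apply _ _⟩
  exact (mul_le_mul hA htrap (pow_nonneg hW.kpos.le _) (Pr_nonneg hOk _ _)).trans (hstep.trans hB)

end H492S
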